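import Pool.Agent.TH365.J3099
import Pool.Agent.TH928.J3106

/-!
# Extensions with group `C₂ ≀ X`, where `X` acts on any finite set `Q`

Generalisation of the files of the starting library for the regular action of `X`.
-/

set_option autoImplicit false
set_option linter.unusedSectionVars false

open IntermediateField
open Pool.Agent.TH365.J3099 (act act_apply act_apply_apply ker_act imP ncard_imP)

namespace Pool.Agent.W5h46.ML

/-- the wreath product `C₂ ≀ X` acting on `Q × Bool` -/
def WrQ (X Q : Type) [Group X] [MulAction X Q] : Set (Equiv.Perm (Q × Bool)) :=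
  {π | ∃ h : X, ∀ x : Q × Bool, (π x).1 = h • x.1}

/-- `L/K` has Galois group `C₂ ≀ X` (as a permutation group on the embeddings) -/
def IsWrQ (K Ω : Type) [Field K] [Field Ω] [Algebra K Ω] (X Q : Type) [Group X] [MulAction X Q]
    (L : IntermediateField K Ω) : Prop :=
  ∃ e : (L →ₐ[K] Ω) ≃ Q × Bool, ∀ π : Equiv.Perm (Q × Bool), π ∈ WrQ X Q ↔
    ∃ σ : Ω ≃ₐ[K] Ω, ∀ φ : L →ₐ[K] Ω, e (σ.toAlgHom.comp φ) = π (e φ)

/-- the permutations of `Q` given by `X` -/
def PmQ (X Q : Type) [Group X] [MulAction X Q] : Set (Equiv.Perm Q) := {π | ∃ h : X, ∀ q, π q = h • q}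

/-- finite extensions of `K` with the permutation group `X` on `Q` -/
def PF (K Ω : Type) [Field K] [Field Ω] [Algebra K Ω] (X Q : Type) [Group X] [MulAction X Q] :
    Set (IntermediateField K Ω) :=
  {M | FiniteDimensional K M ∧ ∃ e : (M →ₐ[K] Ω) ≃ Q, ∀ π : Equiv.Perm Q, π ∈ PmQ X Q ↔
    ∃ σ : Ω ≃ₐ[K] Ω, ∀ φ : M →ₐ[K] Ω, e (σ.toAlgHom.comp φ) = π (e φ)}

/-- the subfields `M` of `L` which show that `L/K` has group `C₂ ≀ X` -/
def MidQ (K Ω : Type) [Field K] [Field Ω] [Algebra K Ω] (X Q : Type) [Group X] [MulAction X Q]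
    (L M : IntermediateField K Ω) : Prop :=
  M ∈ PF K Ω X Q ∧ M ≤ L ∧ FiniteDimensional K L ∧ Module.finrank K L = 2 * Module.finrank K M ∧
    Module.finrank K (IntermediateField.normalClosure K L Ω) =
      2 ^ Module.finrank K M * Module.finrank K (IntermediateField.normalClosure K M Ω)

section wr

variable {X Q : Type} [Group X] [MulAction X Q]

/-- the permutation `(x, b) ↦ (h x, f x b)` -/
def wrF (p : X × (Q → Equiv.Perm Bool)) : Equiv.Perm (Q × Bool) where
  toFun x := (p.1 • x.1, p.2 x.1 x.2)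
  invFun y := (p.1⁻¹ • y.1, (p.2 (p.1⁻¹ • y.1)).symm y.2)
  left_inv x := by simp
  right_inv y := by simp

theorem wrF_injective [FaithfulSMul X Q] : Function.Injective (wrF (X := X) (Q := Q)) := by
  rintro ⟨h, f⟩ ⟨h', f'⟩ e
  have e1 : ∀ x : Q × Bool, wrF (h, f) x = wrF (h', f') x := fun x => by rw [e]
  have h1 : h = h' := by
    apply FaithfulSMul.eq_of_smul_eq_smul (α := Q)
    intro q
    exact congrArg Prod.fst (e1 (q, true))
  subst h1
  have h2 : f = f' := by
    funext x
    ext b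
    have := congrArg Prod.snd (e1 (x, b))
    simpa [wrF] using this
  rw [h2]

theorem range_wrF : Set.range (wrF (X := X) (Q := Q)) = WrQ X Q := by
  ext π
  constructor
  · rintro ⟨⟨h, f⟩, rfl⟩
    exact ⟨h, fun x => rfl⟩
  · rintro ⟨h, hh⟩
    have inj : ∀ x : Q, Function.Injective (fun b : Bool => (π (x, b)).2) := by
      intro x b b' hb
      have : π (x, b) = π (x, b') := by
        apply Prod.ext
        · rw [hh, hh]
        · exact hb
      have := π.injective this
      exact congrArg Prod.snd this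
    refine ⟨(h, fun x => Equiv.ofBijective _ (Finite.injective_iff_bijective.1 (inj x))), ?_⟩
    ext1 x
    apply Prod.ext
    · simp [wrF, hh]
    · simp [wrF]

theorem ncard_WrQ [Finite X] [Finite Q] [FaithfulSMul X Q] :
    (WrQ X Q).ncard = 2 ^ Nat.card Q * Nat.card X := by
  classical
  have : Fintype Q := Fintype.ofFinite Q
  have : Fintype X := Fintype.ofFinite X
  rw [← range_wrF, ← Set.image_univ, Set.ncard_image_of_injective _ wrF_injective,
    Set.ncard_univ, Nat.card_prod, Nat.card_fun, mul_comm]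
  congr 2
  rw [Nat.card_eq_fintype_card, Fintype.card_perm]
  simp

theorem ncard_PmQ [Finite X] [FaithfulSMul X Q] : (PmQ X Q).ncard = Nat.card X := by
  have h1 : PmQ X Q = Set.range (MulAction.toPermHom X Q) := by
    ext π
    constructor
    · rintro ⟨h, hh⟩
      exact ⟨h, by ext q; exact (hh q).symm⟩
    · rintro ⟨h, rfl⟩
      exact ⟨h, fun q => rfl⟩
  rw [h1, ← Set.image_univ, Set.ncard_image_of_injective _ ?_, Set.ncard_univ]
  exact MulAction.toPerm_injective

/-- points of a block are fixed by the same elements of the wreath product -/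
theorem fix_iff (a c : Q × Bool) :
    (∀ π : Equiv.Perm (Q × Bool), π ∈ WrQ X Q → (π a = a ↔ π c = c)) ↔ a.1 = c.1 := by
  classical
  constructor
  · intro h
    by_contra hne
    have hm : Equiv.swap (c.1, false) (c.1, true) ∈ WrQ X Q := by
      refine ⟨1, fun x => ?_⟩
      rw [one_smul, Equiv.swap_apply_def]
      split_ifs with h1 h2
      · rw [h1]
      · rw [h2]
      · rfl
    have h1 := h _ hm
    have h2 : Equiv.swap (c.1, false) (c.1, true) a = a := by
      apply Equiv.swap_apply_of_ne_of_ne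
      · intro h3; exact hne (by rw [h3])
      · intro h3; exact hne (by rw [h3])
    have h3 := h1.1 h2
    obtain ⟨c1, c2⟩ := c
    cases c2 <;> simp at h3
  · intro h
    have key : ∀ a c : Q × Bool, a.1 = c.1 → ∀ π : Equiv.Perm (Q × Bool), π ∈ WrQ X Q →
        π a = a → π c = c := by
      rintro ⟨a1, a2⟩ ⟨c1, c2⟩ h π ⟨g, hg⟩ hπ
      simp only at h
      subst h
      by_cases hb : a2 = c2
      · subst hb; exact hπ
      · have h1 : g • a1 = a1 := by
          have := hg (a1, a2)
          rw [hπ] at this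
          exact this.symm
        have h2 : (π (a1, c2)).1 = a1 := by rw [hg]; exact h1
        have h3 : (π (a1, c2)).2 ≠ a2 := by
          intro h4
          have h5 : π (a1, c2) = π (a1, a2) := by
            rw [hπ]
            exact Prod.ext h2 h4
          have h6 := π.injective h5
          exact hb (congrArg Prod.snd h6).symm
        refine Prod.ext h2 ?_
        revert h3 hb
        cases (π (a1, c2)).2 <;> cases a2 <;> cases c2 <;> simp
    intro π hπ
    exact ⟨key a c h π hπ, key c a h.symm π hπ⟩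

end wr

section main

variable {K Ω : Type} [Field K] [CharZero K] [Field Ω] [Algebra K Ω] [IsAlgClosure K Ω]
variable {X Q : Type} [Group X] [Finite X] [MulAction X Q] [Finite Q] [FaithfulSMul X Q]

/-- extension of embeddings -/
theorem exists_ext (M : IntermediateField K Ω) (φ : M →ₐ[K] Ω) :
    ∃ σ : Ω ≃ₐ[K] Ω, act M σ M.val = φ := by
  have i2 : Normal K Ω := IsAlgClosure.normal K Ω
  have i3 : Algebra.IsAlgebraic K Ω := IsAlgClosure.isAlgebraic
  set ψ : Ω →ₐ[K] Ω := φ.liftNormal Ω with hψ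
  refine ⟨AlgEquiv.ofBijective ψ (Algebra.IsAlgebraic.algHom_bijective ψ), ?_⟩
  ext x
  rw [act_apply_apply]
  exact φ.liftNormal_commutes Ω x

theorem act_val_eq (M : IntermediateField K Ω) (σ τ : Ω ≃ₐ[K] Ω) :
    act M σ M.val = act M τ M.val ↔ σ⁻¹ * τ ∈ M.fixingSubgroup := by
  rw [IntermediateField.mem_fixingSubgroup_iff]
  constructor
  · intro h x hx
    have h1 : σ x = τ x := DFunLike.congr_fun h ⟨x, hx⟩
    rw [AlgEquiv.mul_apply, ← h1]
    exact σ.symm_apply_apply x
  · intro h
    ext x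
    have h1 := h x.1 x.2
    rw [AlgEquiv.mul_apply] at h1
    rw [act_apply_apply, act_apply_apply]
    have h2 := congrArg σ h1
    have h3 : σ (σ⁻¹ (τ x.1)) = τ x.1 := σ.apply_symm_apply _
    rw [h3] at h2
    exact h2.symm

theorem card_emb (M : IntermediateField K Ω) [FiniteDimensional K M] :
    Nat.card (M →ₐ[K] Ω) = Module.finrank K M := by
  have i1 : IsAlgClosed Ω := IsAlgClosure.isAlgClosed K
  rw [← AlgHom.card K M Ω, Nat.card_eq_fintype_card]

theorem pf_finrank {M : IntermediateField K Ω} (h : M ∈ PF K Ω X Q) : Module.finrank K M = Nat.card Q := by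
  obtain ⟨hfd, e, -⟩ := h
  rw [← card_emb M]
  exact Nat.card_congr e

theorem pf_ncl {M : IntermediateField K Ω} (h : M ∈ PF K Ω X Q) :
    Module.finrank K (normalClosure K M Ω) = Nat.card X := by
  obtain ⟨hfd, e, he⟩ := h
  have i2 : Normal K Ω := IsAlgClosure.normal K Ω
  have i3 : Algebra.IsAlgebraic K Ω := IsAlgClosure.isAlgebraic
  have i4 : Algebra.IsSeparable K Ω := inferInstance
  have h1 : imP M e = PmQ X Q := by
    ext π
    exact (he π).symm
  rw [← ncard_imP M e, h1, ncard_PmQ]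

/-- a homomorphism to `X` from the action on the embeddings of `M` -/
theorem exists_hom (M : IntermediateField K Ω) (e : (M →ₐ[K] Ω) ≃ Q)
    (he : ∀ π : Equiv.Perm Q, π ∈ PmQ X Q ↔ ∃ σ : Ω ≃ₐ[K] Ω, ∀ φ : M →ₐ[K] Ω, e (σ.toAlgHom.comp φ) = π (e φ)) :
    ∃ h : (Ω ≃ₐ[K] Ω) →* X, Function.Surjective h ∧ ∀ σ φ, e (act M σ φ) = h σ • e φ := by
  have h1 : ∀ σ : Ω ≃ₐ[K] Ω, ∃ a : X, ∀ φ, e (act M σ φ) = a • e φ := by
    intro σ
    have h2 : (e.symm.trans ((act M σ).trans e)) ∈ PmQ X Q := (he _).2 ⟨σ, fun φ => by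
      simp [act_apply]⟩
    obtain ⟨a, ha⟩ := h2
    refine ⟨a, fun φ => ?_⟩
    rw [← ha]
    simp
  choose a ha using h1
  refine ⟨{ toFun := a, map_one' := ?_, map_mul' := ?_ }, ?_, fun σ φ => ha σ φ⟩
  · apply FaithfulSMul.eq_of_smul_eq_smul (α := Q)
    intro q
    obtain ⟨φ, rfl⟩ := e.surjective q
    rw [← ha, map_one, one_smul]
    rfl
  · intro σ τ
    apply FaithfulSMul.eq_of_smul_eq_smul (α := Q)
    intro q
    obtain ⟨φ, rfl⟩ := e.surjective q
    rw [← ha, map_mul, mul_smul, ← ha, ← ha]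
    rfl
  · intro x
    obtain ⟨σ, hσ⟩ := (he (MulAction.toPerm x)).1 ⟨x, fun q => rfl⟩
    refine ⟨σ, ?_⟩
    apply FaithfulSMul.eq_of_smul_eq_smul (α := Q)
    intro q
    obtain ⟨φ, rfl⟩ := e.surjective q
    change a σ • e φ = x • e φ
    rw [← ha]
    exact hσ φ

/-- construction of fields in `PF` -/
theorem pf_of_hom [MulAction.IsPretransitive X Q] (h : (Ω ≃ₐ[K] Ω) →* X) (hs : Function.Surjective h)
    (hopen : IsOpen (h.ker : Set (Ω ≃ₐ[K] Ω))) (b : Q) :
    ∃ M : IntermediateField K Ω, M ∈ PF K Ω X Q ∧ M.fixingSubgroup = (MulAction.stabilizer X b).comap h ∧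
      M = fixedField ((MulAction.stabilizer X b).comap h) := by
  have i1 : IsAlgClosed Ω := IsAlgClosure.isAlgClosed K
  have i2 : Normal K Ω := IsAlgClosure.normal K Ω
  have i3 : Algebra.IsAlgebraic K Ω := IsAlgClosure.isAlgebraic
  have i4 : Algebra.IsSeparable K Ω := inferInstance
  have i5 : IsGalois K Ω := ⟨⟩
  set B := (MulAction.stabilizer X b).comap h with hB
  have hle : h.ker ≤ B := by
    intro σ hσ
    rw [MonoidHom.mem_ker] at hσ
    rw [hB, Subgroup.mem_comap, hσ]
    exact one_mem _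
  have hBo : IsOpen (B : Set (Ω ≃ₐ[K] Ω)) := Subgroup.isOpen_mono hle hopen
  have hBc : IsClosed (B : Set (Ω ≃ₐ[K] Ω)) := Subgroup.isClosed_of_isOpen _ hBo
  obtain ⟨M, hMdef⟩ : ∃ M, M = fixedField B := ⟨_, rfl⟩
  have hM : M.fixingSubgroup = B := by
    rw [hMdef]
    exact InfiniteGalois.fixingSubgroup_fixedField ⟨B, hBc⟩
  have hMfd : FiniteDimensional K M := by
    rw [← InfiniteGalois.isOpen_iff_finite, hM]
    exact hBo
  refine ⟨M, ⟨hMfd, ?_⟩, hM, hMdef⟩
  choose s hsv using exists_ext (K := K) (Ω := Ω) M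
  have hwd : ∀ σ τ : Ω ≃ₐ[K] Ω, act M σ M.val = act M τ M.val ↔ h σ • b = h τ • b := by
    intro σ τ
    rw [act_val_eq, hM, hB, Subgroup.mem_comap, MulAction.mem_stabilizer_iff, map_mul, map_inv, mul_smul,
      inv_smul_eq_iff, eq_comm]
  let θ : (M →ₐ[K] Ω) → Q := fun φ => h (s φ) • b
  have hθ : ∀ σ, θ (act M σ M.val) = h σ • b := fun σ => (hwd _ _).1 (hsv _)
  have hbij : Function.Bijective θ := by
    constructor
    · intro φ ψ hφψ
      rw [← hsv φ, ← hsv ψ]
      exact (hwd _ _).2 hφψ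
    · intro q
      obtain ⟨x, hx⟩ := MulAction.exists_smul_eq X b q
      obtain ⟨σ, hσ⟩ := hs x
      exact ⟨act M σ M.val, by rw [hθ, hσ, hx]⟩
  let e : (M →ₐ[K] Ω) ≃ Q := Equiv.ofBijective θ hbij
  have heq : ∀ (σ : Ω ≃ₐ[K] Ω) (φ : M →ₐ[K] Ω), e (σ.toAlgHom.comp φ) = h σ • e φ := by
    intro σ φ
    change θ (act M σ φ) = h σ • θ φ
    conv_lhs => rw [← hsv φ]
    rw [← Equiv.Perm.mul_apply, ← map_mul, hθ, map_mul, mul_smul]
  refine ⟨e, fun π => ⟨?_, ?_⟩⟩
  · rintro ⟨x, hx⟩
    obtain ⟨σ, hσ⟩ := hs x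
    exact ⟨σ, fun φ => by rw [heq, hx, hσ]⟩
  · rintro ⟨σ, hσ⟩
    refine ⟨h σ, fun q => ?_⟩
    obtain ⟨φ, rfl⟩ := e.surjective q
    rw [← hσ, heq]

theorem forward [MulAction.IsPretransitive X Q] (L : IntermediateField K Ω)
    (hL : Module.finrank K L = 2 * Nat.card Q) (hne : Nonempty Q)
    (hw : IsWrQ K Ω X Q L) : ∃ M, MidQ K Ω X Q L M := by
  obtain ⟨e, he⟩ := hw
  have hpos : 0 < Nat.card Q := Nat.card_pos
  have hfd : FiniteDimensional K L := FiniteDimensional.of_finrank_pos (by omega)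
  have i1 : IsAlgClosed Ω := IsAlgClosure.isAlgClosed K
  have i2 : Normal K Ω := IsAlgClosure.normal K Ω
  have i3 : Algebra.IsAlgebraic K Ω := IsAlgClosure.isAlgebraic
  have i4 : Algebra.IsSeparable K Ω := inferInstance
  have i5 : IsGalois K Ω := ⟨⟩
  let P : (Ω ≃ₐ[K] Ω) →* Equiv.Perm (Q × Bool) := e.permCongrHom.toMonoidHom.comp (act L)
  have hP : ∀ (σ : Ω ≃ₐ[K] Ω) (φ : L →ₐ[K] Ω), e (act L σ φ) = P σ (e φ) := by
    intro σ φ
    change _ = e (act L σ (e.symm (e φ)))
    rw [Equiv.symm_apply_apply]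
  have hPW : ∀ σ, P σ ∈ WrQ X Q := fun σ => (he _).2 ⟨σ, fun φ => hP σ φ⟩
  choose a ha using hPW
  let h : (Ω ≃ₐ[K] Ω) →* X :=
    { toFun := a
      map_one' := by
        apply FaithfulSMul.eq_of_smul_eq_smul (α := Q)
        intro q
        have h1 := ha 1 (q, true)
        rw [map_one, Equiv.Perm.one_apply] at h1
        rw [one_smul]
        exact h1.symm
      map_mul' := fun σ τ => by
        apply FaithfulSMul.eq_of_smul_eq_smul (α := Q)
        intro q
        have h1 := ha (σ * τ) (q, true)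
        rw [map_mul, Equiv.Perm.mul_apply, ha σ, ha τ] at h1
        rw [mul_smul]
        exact h1.symm }
  have hh : ∀ σ (x : Q × Bool), (P σ x).1 = h σ • x.1 := fun σ x => ha σ x
  have hs : Function.Surjective h := by
    intro x
    obtain ⟨σ, hσ⟩ := (he (wrF (x, 1))).1 ⟨x, fun x => rfl⟩
    refine ⟨σ, ?_⟩
    apply FaithfulSMul.eq_of_smul_eq_smul (α := Q)
    intro q
    have h1 := hσ (e.symm (q, true))
    rw [← act_apply, hP, Equiv.apply_symm_apply] at h1
    have h2 := hh σ (q, true)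
    rw [h1] at h2
    exact h2.symm
  have hact : ∀ σ, act L σ = 1 → h σ = 1 := by
    intro σ hσ
    apply FaithfulSMul.eq_of_smul_eq_smul (α := Q)
    intro q
    have h1 := hh σ (q, true)
    have h2 : P σ = 1 := by
      change e.permCongrHom.toMonoidHom (act L σ) = 1
      rw [hσ, map_one]
    rw [h2] at h1
    rw [one_smul]
    exact h1.symm
  have hker : (normalClosure K L Ω).fixingSubgroup ≤ h.ker := by
    rw [← ker_act]
    intro σ hσ
    exact hact σ hσ
  have hopen : IsOpen (h.ker : Set (Ω ≃ₐ[K] Ω)) :=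
    Subgroup.isOpen_mono hker (normalClosure K L Ω).fixingSubgroup_isOpen
  obtain ⟨M, hMp, hMf, hMd⟩ := pf_of_hom (X := X) (Q := Q) h hs hopen (e L.val).1
  have hLB : L.fixingSubgroup ≤ (MulAction.stabilizer X (e L.val).1).comap h := by
    intro σ hσ
    rw [Subgroup.mem_comap, MulAction.mem_stabilizer_iff]
    have h1 : act L σ L.val = L.val := by
      ext x
      rw [act_apply_apply]
      rw [IntermediateField.mem_fixingSubgroup_iff] at hσ
      exact hσ _ x.2
    have h2 := hP σ L.val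
    rw [h1] at h2
    rw [← hh σ (e L.val), ← h2]
  have hML : M ≤ L := by
    rw [← InfiniteGalois.fixedField_fixingSubgroup L, hMd]
    intro x hx
    rw [mem_fixedField_iff] at hx ⊢
    exact fun σ hσ => hx σ (hLB hσ)
  refine ⟨M, hMp, hML, hfd, ?_, ?_⟩
  · rw [pf_finrank hMp, hL]
  · have h1 : imP L e = WrQ X Q := by
      ext π
      exact (he π).symm
    rw [← ncard_imP L e, h1, ncard_WrQ, pf_finrank hMp, pf_ncl hMp]

/-- the embeddings of `L` over `M` -/
def Over (L M : IntermediateField K Ω) (hML : M ≤ L) (ψ : M →ₐ[K] Ω) : Set (L →ₐ[K] Ω) :=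
  {φ | φ.comp (IntermediateField.inclusion hML) = ψ}

/-- the embeddings of `L` as pairs -/
theorem exists_pair (L M : IntermediateField K Ω) (hML : M ≤ L) [FiniteDimensional K L] [FiniteDimensional K M]
    (hLM : Module.finrank K L = 2 * Module.finrank K M) :
    ∃ F : (L →ₐ[K] Ω) ≃ (M →ₐ[K] Ω) × Over L M hML M.val,
      (∀ φ, (F φ).1 = φ.comp (IntermediateField.inclusion hML)) ∧ Nat.card (Over L M hML M.val) = 2 := by
  have i1 : IsAlgClosed Ω := IsAlgClosure.isAlgClosed K
  let i : M →ₐ[K] L := IntermediateField.inclusion hML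
  let r : (L →ₐ[K] Ω) → (M →ₐ[K] Ω) := fun φ => φ.comp i
  have hr : ∀ (σ : Ω ≃ₐ[K] Ω) (φ : L →ₐ[K] Ω), r (act L σ φ) = act M σ (r φ) := fun σ φ => rfl
  choose s hsr using exists_ext (K := K) (Ω := Ω) M
  have hinv : ∀ (σ : Ω ≃ₐ[K] Ω) (φ : M →ₐ[K] Ω), act M σ⁻¹ (act M σ φ) = φ := by
    intro σ φ
    rw [← Equiv.Perm.mul_apply, ← map_mul, inv_mul_cancel, map_one, Equiv.Perm.one_apply]
  let F : (L →ₐ[K] Ω) ≃ (M →ₐ[K] Ω) × Over L M hML M.val :=
    { toFun := fun φ => (r φ, ⟨act L (s (r φ))⁻¹ φ, by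
        change r (act L (s (r φ))⁻¹ φ) = M.val
        rw [hr]
        conv_lhs => rw [← hsr (r φ)]
        rw [hsr (r φ)]
        conv_lhs => rw [← hsr (r φ), hsr (r φ)]
        have h1 := hinv (s (r φ)) M.val
        rw [hsr] at h1
        exact h1⟩)
      invFun := fun p => act L (s p.1) p.2.1
      left_inv := fun φ => by
        change act L (s (r φ)) (act L (s (r φ))⁻¹ φ) = φ
        rw [← Equiv.Perm.mul_apply, ← map_mul, mul_inv_cancel, map_one, Equiv.Perm.one_apply]
      right_inv := fun p => by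
        obtain ⟨a, φ, hφ⟩ := p
        have hφ' : r φ = M.val := hφ
        have h1 : r (act L (s a) φ) = a := by rw [hr, hφ', hsr]
        apply Prod.ext
        · exact h1
        · apply Subtype.ext
          change act L (s (r (act L (s a) φ)))⁻¹ (act L (s a) φ) = φ
          rw [h1, ← Equiv.Perm.mul_apply, ← map_mul, inv_mul_cancel, map_one,
            Equiv.Perm.one_apply] }
  refine ⟨F, fun φ => rfl, ?_⟩
  have hfin : Finite (L →ₐ[K] Ω) := inferInstance
  have hMpos : 0 < Module.finrank K M := Module.finrank_pos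
  have h1 := Nat.card_congr F
  rw [Nat.card_prod, card_emb, card_emb, hLM, mul_comm] at h1
  exact (Nat.eq_of_mul_eq_mul_left hMpos h1).symm

theorem backward (L M : IntermediateField K Ω) (h : MidQ K Ω X Q L M) :
    Module.finrank K L = 2 * Nat.card Q ∧ IsWrQ K Ω X Q L := by
  have hpf := h.1
  obtain ⟨⟨hMfd, eM, heM⟩, hML, hLfd, hLM, hN⟩ := h
  have i1 : IsAlgClosed Ω := IsAlgClosure.isAlgClosed K
  have i2 : Normal K Ω := IsAlgClosure.normal K Ω
  have i3 : Algebra.IsAlgebraic K Ω := IsAlgClosure.isAlgebraic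
  have i4 : Algebra.IsSeparable K Ω := inferInstance
  have i5 : IsGalois K Ω := ⟨⟩
  refine ⟨by rw [hLM, pf_finrank hpf], ?_⟩
  obtain ⟨F, hF, hc⟩ := exists_pair L M hML hLM
  obtain ⟨hm, -, hhm⟩ := exists_hom M eM heM
  have hc2 : Nat.card (Over L M hML M.val) = Nat.card Bool := by
    rw [hc]
    simp
  have hfinO : Finite (Over L M hML M.val) := Nat.finite_of_card_ne_zero (by omega)
  let β : Over L M hML M.val ≃ Bool := (Finite.card_eq.1 hc2).some
  let e : (L →ₐ[K] Ω) ≃ Q × Bool := F.trans (Equiv.prodCongr eM β)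
  have he1 : ∀ φ, (e φ).1 = eM (φ.comp (IntermediateField.inclusion hML)) := fun φ => by
    change eM (F φ).1 = _
    rw [hF]
  have hsub : imP L e ⊆ WrQ X Q := by
    rintro π ⟨σ, hσ⟩
    refine ⟨hm σ, fun x => ?_⟩
    obtain ⟨φ, rfl⟩ := e.surjective x
    rw [← hσ φ, he1, he1, ← hhm]
    rfl
  have heq : imP L e = WrQ X Q := by
    apply Set.eq_of_subset_of_ncard_le hsub
    rw [ncard_imP L e, ncard_WrQ, hN, pf_finrank hpf, pf_ncl hpf]
  refine ⟨e, fun π => ?_⟩
  rw [← heq]
  rfl

/-- `M` is determined by `L` -/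
theorem mid_unique (L M M' : IntermediateField K Ω) (h : MidQ K Ω X Q L M)
    (h' : MidQ K Ω X Q L M') : M = M' := by
  have i1 : IsAlgClosed Ω := IsAlgClosure.isAlgClosed K
  have i2 : Normal K Ω := IsAlgClosure.normal K Ω
  have i3 : Algebra.IsAlgebraic K Ω := IsAlgClosure.isAlgebraic
  have i4 : Algebra.IsSeparable K Ω := inferInstance
  have i5 : IsGalois K Ω := ⟨⟩
  obtain ⟨-, e, he⟩ := backward L M h
  have hLfd : FiniteDimensional K L := h.2.2.1
  have hfin : Finite (L →ₐ[K] Ω) := inferInstance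
  -- the block of the inclusion
  set Bl : Set (L →ₐ[K] Ω) := {φ | (e φ).1 = (e L.val).1} with hBl
  have hBlc : Bl.ncard = 2 := by
    have h1 : Bl = e ⁻¹' ((fun b : Bool => ((e L.val).1, b)) '' Set.univ) := by
      ext φ
      simp only [hBl, Set.mem_setOf_eq, Set.mem_preimage, Set.mem_image, Set.mem_univ, true_and]
      constructor
      · intro h2
        exact ⟨(e φ).2, by rw [← h2]⟩
      · rintro ⟨b, hb⟩
        rw [← hb]
    rw [h1, Set.ncard_preimage_of_injective_subset_range e.injective (by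
      rw [e.surjective.range_eq]; exact Set.subset_univ _), Set.ncard_image_of_injective _ (fun a b hab => by
      simpa using hab), Set.ncard_univ]
    simp
  have key : ∀ N : IntermediateField K Ω, MidQ K Ω X Q L N → ∀ x : Ω, x ∈ N ↔ ∃ hx : x ∈ L, ∀ φ ∈ Bl, φ ⟨x, hx⟩ = x := by
    intro N hN
    have hNfd : FiniteDimensional K N := hN.1.1
    obtain ⟨F, hF, hc⟩ := exists_pair L N hN.2.1 hN.2.2.2.1
    have hNL := hN.2.1
    have hfO : Finite (Over L N hNL N.val) := Nat.finite_of_card_ne_zero (by rw [hc]; norm_num)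
    have hval : L.val ∈ Over L N hNL N.val := rfl
    -- the group fixing `N` permutes the two embeddings
    have hstab : ∀ (τ : Ω ≃ₐ[K] Ω) (φ : L →ₐ[K] Ω), φ ∈ Over L N hNL N.val → act L τ φ = φ →
        ∀ χ ∈ Over L N hNL N.val, act L τ χ = χ := by
      intro τ φ hφ hτ χ hχ
      have hN1 : act N τ N.val = N.val := by
        have h1 : (act L τ φ).comp (IntermediateField.inclusion hNL) = act N τ (φ.comp (IntermediateField.inclusion hNL)) := rfl
        rw [hτ] at h1
        have h2 : φ.comp (IntermediateField.inclusion hNL) = N.val := hφ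
        rw [h2] at h1
        exact h1.symm
      have hmaps : ∀ ψ ∈ Over L N hNL N.val, act L τ ψ ∈ Over L N hNL N.val := by
        intro ψ hψ
        have h1 : (act L τ ψ).comp (IntermediateField.inclusion hNL) = act N τ (ψ.comp (IntermediateField.inclusion hNL)) := rfl
        have h2 : ψ.comp (IntermediateField.inclusion hNL) = N.val := hψ
        change (act L τ ψ).comp (IntermediateField.inclusion hNL) = N.val
        rw [h1, h2, hN1]
      by_contra hne
      have h3 : χ ≠ φ := by
        rintro rfl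
        exact hne hτ
      have h4 : act L τ χ ≠ φ := by
        intro h5
        apply h3
        apply (act L τ).injective
        rw [h5, hτ]
      have h5 : ({χ, act L τ χ, φ} : Set (L →ₐ[K] Ω)) ⊆ Over L N hNL N.val := by
        rintro ψ (rfl | rfl | rfl)
        · exact hχ
        · exact hmaps _ hχ
        · exact hφ
      have h6 := Set.ncard_le_ncard h5 (Set.toFinite _)
      have h7 : ({χ, act L τ χ, φ} : Set (L →ₐ[K] Ω)).ncard = 3 := by
        rw [Set.ncard_eq_three]
        exact ⟨χ, act L τ χ, φ, fun h8 => hne h8.symm, h3, h4, rfl⟩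
      rw [h7, ← Nat.card_coe_set_eq, hc] at h6
      omega
    have hsub : Over L N hNL N.val ⊆ Bl := by
      intro φ hφ
      change (e φ).1 = (e L.val).1
      rw [← fix_iff (X := X)]
      intro π hπ
      obtain ⟨σ, hσ⟩ := (he π).1 hπ
      rw [← hσ, ← hσ, e.injective.eq_iff, e.injective.eq_iff]
      constructor
      · intro h1
        exact hstab σ φ hφ h1 L.val hval
      · intro h1
        exact hstab σ L.val hval h1 φ hφ
    have hEq : Over L N hNL N.val = Bl := by
      apply Set.eq_of_subset_of_ncard_le hsub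
      rw [hBlc, ← Nat.card_coe_set_eq, hc]
    intro x
    constructor
    · intro hx
      refine ⟨hNL hx, fun φ hφ => ?_⟩
      rw [← hEq] at hφ
      have h1 : φ.comp (IntermediateField.inclusion hNL) = N.val := hφ
      exact DFunLike.congr_fun h1 ⟨x, hx⟩
    · rintro ⟨hx, h1⟩
      rw [← InfiniteGalois.fixedField_fixingSubgroup N, mem_fixedField_iff]
      intro σ hσ
      have h2 : act L σ L.val ∈ Bl := by
        rw [← hEq]
        change (act L σ L.val).comp (IntermediateField.inclusion hNL) = N.val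
        ext y
        rw [IntermediateField.mem_fixingSubgroup_iff] at hσ
        exact hσ y.1 y.2
      exact h1 _ h2
  ext x
  rw [key M h, key M' h']

/-- the number of the fields isomorphic to `L` -/
theorem conj_card (L : IntermediateField K Ω) (hW : IsWrQ K Ω X Q L) :
    Set.ncard {L' : IntermediateField K Ω | Nonempty (L ≃ₐ[K] L')} = Nat.card Q := by
  obtain ⟨e, he⟩ := hW
  have : Algebra.IsAlgebraic K Ω := IsAlgClosure.isAlgebraic
  have : Normal K Ω := IsAlgClosure.normal K Ω
  have : IsGalois K Ω := ⟨⟩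
  have key : ∀ φ ψ : L →ₐ[K] Ω, φ.fieldRange = ψ.fieldRange ↔ (e φ).1 = (e ψ).1 := by
    intro φ ψ
    rw [Pool.Agent.TH928.J3106.range_eq_iff, ← fix_iff (X := X)]
    constructor
    · intro h π hπ
      obtain ⟨σ, hσ⟩ := (he π).1 hπ
      have := h σ
      rw [← hσ, ← hσ, e.injective.eq_iff, e.injective.eq_iff]
      exact this
    · intro h σ
      let π : Equiv.Perm (Q × Bool) := (e.symm.trans (act L σ)).trans e
      have hp : ∀ χ : L →ₐ[K] Ω, e (σ.toAlgHom.comp χ) = π (e χ) := by
        intro χ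
        simp [π, act_apply]
      have hπ : π ∈ WrQ X Q := (he π).2 ⟨σ, hp⟩
      have := h π hπ
      rw [← hp, ← hp, e.injective.eq_iff, e.injective.eq_iff] at this
      exact this
  let f : Q → IntermediateField K Ω := fun h => (e.symm (h, false)).fieldRange
  have hf : Function.Injective f := by
    intro a b hab
    have := (key _ _).1 hab
    simpa using this
  have hr : {L' : IntermediateField K Ω | Nonempty (L ≃ₐ[K] L')} = Set.range f := by
    ext L'
    constructor
    · rintro ⟨g⟩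
      refine ⟨(e (L'.val.comp g.toAlgHom)).1, ?_⟩
      have h1 : (L'.val.comp g.toAlgHom).fieldRange = L' := by
        ext x
        constructor
        · rintro ⟨y, rfl⟩
          exact (g y).2
        · intro hx
          exact ⟨g.symm ⟨x, hx⟩, by simp⟩
      have h2 : f (e (L'.val.comp g.toAlgHom)).1 = (L'.val.comp g.toAlgHom).fieldRange := by
        rw [key]
        simp
      rw [h2, h1]
    · rintro ⟨h, rfl⟩
      exact ⟨AlgEquiv.ofInjectiveField (e.symm (h, false))⟩
  rw [hr, Set.ncard_range_of_injective hf]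

end main

end Pool.Agent.W5h46.ML
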