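import Pool.Agent.TH228.J3101
import Pool.Agent.W5h46.ML.Grp

/-!
# Few extensions with a given permutation group
-/

set_option autoImplicit false
set_option linter.unusedSectionVars false

open NumberField Filter Topology Pool.Agent.TH444.ML IntermediateField

namespace Pool.Agent.W5h46.ML

open Pool.Agent.TH365.J3099 (act act_apply act_apply_apply ker_act)
open Pool.Agent.TH228.J3101 (nf dsc_eq one_le)

section

variable {K Ω : Type} [Field K] [NumberField K] [Field Ω] [Algebra K Ω]

theorem dsc_tower (F M : IntermediateField K Ω) (hFM : F ≤ M) [FiniteDimensional K M] [FiniteDimensional K F]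
    (n : ℕ) (hn : Module.finrank K M = Module.finrank K F * n) : dsc F ^ n ≤ dsc M := by
  let _ : Algebra F M := (IntermediateField.inclusion hFM).toAlgebra
  have htow : IsScalarTower K F M := IsScalarTower.of_algebraMap_eq fun x => rfl
  have hnM : NumberField M := nf M
  have hnF : NumberField F := nf F
  have h1 : Module.finrank F M = n := by
    have h2 := Module.finrank_mul_finrank K F M
    rw [hn] at h2
    exact Nat.eq_of_mul_eq_mul_left Module.finrank_pos h2
  rw [dsc_eq, dsc_eq]
  have h3 := natAbs_discr_eq_absNorm_differentIdeal_mul_natAbs_discr_pow F (𝓞 F) M (𝓞 M)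
  rw [h1] at h3
  have h4 : (discr M).natAbs ≠ 0 := Nat.one_le_iff_ne_zero.1 (one_le M)
  have h5 : (discr F).natAbs ^ n ∣ (discr M).natAbs := ⟨_, by rw [h3, mul_comm]⟩
  exact_mod_cast Nat.le_of_dvd (Nat.pos_of_ne_zero h4) h5

/-- the number of subfields of a Galois extension -/
theorem card_sub (N : IntermediateField K Ω) [FiniteDimensional K N] [IsGalois K N] :
    {M : IntermediateField K Ω | M ≤ N}.Finite ∧
      {M : IntermediateField K Ω | M ≤ N}.ncard ≤ 2 ^ Module.finrank K N := by
  classical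
  have hf : Finite (N ≃ₐ[K] N) := inferInstance
  let f : {M : IntermediateField K Ω | M ≤ N} → Set (N ≃ₐ[K] N) :=
    fun M => ((IntermediateField.restrict M.2).fixingSubgroup : Set (N ≃ₐ[K] N))
  have hinj : Function.Injective f := by
    rintro ⟨M1, h1⟩ ⟨M2, h2⟩ h
    have h3 : (IntermediateField.restrict h1).fixingSubgroup = (IntermediateField.restrict h2).fixingSubgroup :=
      SetLike.coe_injective h
    have h4 : IntermediateField.restrict h1 = IntermediateField.restrict h2 := by
      rw [← IsGalois.fixedField_fixingSubgroup (IntermediateField.restrict h1), h3,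
        IsGalois.fixedField_fixingSubgroup]
    apply Subtype.ext
    change M1 = M2
    rw [← IntermediateField.lift_restrict h1, h4, IntermediateField.lift_restrict h2]
  have hfin : Finite {M : IntermediateField K Ω | M ≤ N} := Finite.of_injective f hinj
  refine ⟨Set.toFinite _, ?_⟩
  rw [← Nat.card_coe_set_eq]
  refine (Nat.card_le_card_of_injective f hinj).trans ?_
  have : Fintype (N ≃ₐ[K] N) := Fintype.ofFinite _
  rw [Nat.card_eq_fintype_card, Fintype.card_set, ← Nat.card_eq_fintype_card, IsGalois.card_aut_eq_finrank]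

end

section few

theorem faithful_of_core {X : Type} [Group X] (U : Subgroup X) (hU : U.normalCore = ⊥) :
    FaithfulSMul X (X ⧸ U) := by
  constructor
  intro a b hab
  have h1 : a⁻¹ * b ∈ U.normalCore := by
    rw [Subgroup.normalCore_eq_ker, MonoidHom.mem_ker]
    ext q
    change (a⁻¹ * b) • q = q
    rw [mul_smul, ← hab q, inv_smul_smul]
  rw [hU, Subgroup.mem_bot] at h1
  rw [← mul_one a, ← h1, mul_inv_cancel_left]

variable {K Ω : Type} [Field K] [NumberField K] [Field Ω] [Algebra K Ω] [IsAlgClosure K Ω]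

theorem mainQ {X : Type} [Group X] [Finite X] (V U : Subgroup X) (hVU : V ≤ U) (hU : U.normalCore = ⊥)
    (M : IntermediateField K Ω) (hM : M ∈ PF K Ω X (X ⧸ V)) :
    ∃ F : IntermediateField K Ω, FiniteDimensional K F ∧ Module.finrank K F = U.index ∧ F ≤ M ∧
      normalClosure K F Ω = normalClosure K M Ω ∧ dsc F ^ (V.relIndex U) ≤ dsc M := by
  have hn : Normal K Ω := IsAlgClosure.normal K Ω
  have i3 : Algebra.IsAlgebraic K Ω := IsAlgClosure.isAlgebraic
  have i4 : Algebra.IsSeparable K Ω := inferInstance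
  have i5 : IsGalois K Ω := ⟨⟩
  have hfU : FaithfulSMul X (X ⧸ U) := faithful_of_core U hU
  have hV : V.normalCore = ⊥ := by
    rw [← le_bot_iff, ← hU]
    exact Subgroup.normalCore_mono hVU
  have hfV : FaithfulSMul X (X ⧸ V) := faithful_of_core V hV
  have hMc := pf_finrank hM
  have hMn := pf_ncl hM
  obtain ⟨hMfd, e, he⟩ := hM
  obtain ⟨h, hs, hh⟩ := exists_hom M e he
  obtain ⟨x₀, hx₀⟩ := QuotientGroup.mk_surjective (e M.val)
  have hker : (normalClosure K M Ω).fixingSubgroup ≤ h.ker := by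
    rw [← ker_act]
    intro σ hσ
    have hσ' : act M σ = 1 := hσ
    rw [MonoidHom.mem_ker]
    apply FaithfulSMul.eq_of_smul_eq_smul (α := X ⧸ V)
    intro q
    obtain ⟨φ, rfl⟩ := e.surjective q
    rw [← hh, hσ', one_smul]
    rfl
  have hopen : IsOpen (h.ker : Set (Ω ≃ₐ[K] Ω)) :=
    Subgroup.isOpen_mono hker (normalClosure K M Ω).fixingSubgroup_isOpen
  obtain ⟨F, hFp, hFf, hFd⟩ := pf_of_hom (X := X) (Q := X ⧸ U) h hs hopen (QuotientGroup.mk x₀)
  have hFfd : FiniteDimensional K F := hFp.1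
  have hFM : F ≤ M := by
    rw [← InfiniteGalois.fixedField_fixingSubgroup M, hFd]
    intro x hx
    rw [mem_fixedField_iff] at hx ⊢
    intro σ hσ
    apply hx
    rw [Subgroup.mem_comap, MulAction.mem_stabilizer_iff]
    have h1 : act M σ M.val = M.val := by
      ext x
      rw [act_apply_apply]
      rw [IntermediateField.mem_fixingSubgroup_iff] at hσ
      exact hσ _ x.2
    have h2 := hh σ M.val
    rw [h1, ← hx₀] at h2
    have h3 : h σ • (QuotientGroup.mk x₀ : X ⧸ V) = QuotientGroup.mk (h σ * x₀) := rfl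
    rw [h3, QuotientGroup.eq] at h2
    change (QuotientGroup.mk (h σ * x₀) : X ⧸ U) = QuotientGroup.mk x₀
    symm
    rw [QuotientGroup.eq]
    exact hVU h2
  have hFc : Module.finrank K F = U.index := by
    rw [pf_finrank hFp]
    rfl
  have hMi : Module.finrank K M = V.index := by
    rw [hMc]
    rfl
  refine ⟨F, hFfd, hFc, hFM, ?_, ?_⟩
  · have hle : normalClosure K F Ω ≤ normalClosure K M Ω := normalClosure_mono F M hFM
    apply IntermediateField.eq_of_le_of_finrank_eq hle
    rw [pf_ncl hFp, hMn]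
  · apply dsc_tower F M hFM
    rw [hFc, hMi, mul_comm, Subgroup.relIndex_mul_index hVU]

theorem fewQ (hherm : HermiteRel) {X : Type} [Group X] [Finite X] (V U : Subgroup X) (hVU : V ≤ U)
    (hU : U.normalCore = ⊥) (hcard : 8 * U.index * (U.index + 1) ≤ V.index) :
    Summable (fun M : PF K Ω X (X ⧸ V) => (dsc M.1) ^ (-(1 / 4) : ℝ)) := by
  classical
  have hn : Normal K Ω := IsAlgClosure.normal K Ω
  have i3 : Algebra.IsAlgebraic K Ω := IsAlgClosure.isAlgebraic
  have hV : V.normalCore = ⊥ := by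
    rw [← le_bot_iff, ← hU]
    exact Subgroup.normalCore_mono hVU
  have hfV : FaithfulSMul X (X ⧸ V) := faithful_of_core V hV
  obtain ⟨C, hC⟩ := hherm K Ω U.index
  have key : ∀ M : PF K Ω X (X ⧸ V), ∃ F : IntermediateField K Ω, FiniteDimensional K F ∧
      Module.finrank K F = U.index ∧ F ≤ M.1 ∧ normalClosure K F Ω = normalClosure K M.1 Ω ∧
      dsc F ^ (V.relIndex U) ≤ dsc M.1 := fun M => mainQ V U hVU hU M.1 M.2
  choose F hfd hfr hFM hncl hdsc using key
  have hnF : ∀ M, NumberField (F M) := fun M => by have := hfd M; exact nf _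
  have hnM : ∀ M : PF K Ω X (X ⧸ V), NumberField M.1 := fun M => by
    have : FiniteDimensional K M.1 := M.2.1
    exact nf _
  set g : PF K Ω X (X ⧸ V) → ℕ := fun M => (discr (F M)).natAbs with hg
  have hg1 : ∀ M, 1 ≤ g M := fun M => one_le (F M)
  have hu : 1 ≤ U.index := Nat.one_le_iff_ne_zero.2 Subgroup.index_ne_zero_of_finite
  have hcU : 8 * (U.index + 1) ≤ V.relIndex U := by
    have h1 := Subgroup.relIndex_mul_index hVU
    rw [← h1] at hcard
    have : U.index * (8 * (U.index + 1)) ≤ U.index * V.relIndex U := by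
      calc U.index * (8 * (U.index + 1)) = 8 * U.index * (U.index + 1) := by ring
        _ ≤ _ := hcard
        _ = _ := by ring
    exact Nat.le_of_mul_le_mul_left this hu
  have hbound : ∀ M : PF K Ω X (X ⧸ V), (dsc M.1) ^ (-(1 / 4) : ℝ) ≤
      (1 : ℝ) / (g M : ℝ) ^ (2 * U.index + 2) := by
    intro M
    have h1 : (1 : ℝ) ≤ g M := by exact_mod_cast hg1 M
    have h2 : (g M : ℝ) ^ (8 * (U.index + 1)) ≤ dsc M.1 := by
      refine le_trans ?_ (hdsc M)
      rw [dsc_eq (F M)]
      exact pow_le_pow_right₀ h1 hcU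
    have h3 : ((g M : ℝ) ^ (8 * (U.index + 1))) ^ (-(1 / 4) : ℝ) =
        (1 : ℝ) / (g M : ℝ) ^ (2 * U.index + 2) := by
      have h4 : (1 : ℝ) / (g M : ℝ) ^ (2 * U.index + 2) =
          (g M : ℝ) ^ (-((2 * U.index + 2 : ℕ) : ℝ)) := by
        rw [Real.rpow_neg (by positivity), Real.rpow_natCast, one_div]
      rw [h4, ← Real.rpow_natCast, ← Real.rpow_mul (by positivity)]
      congr 1
      push_cast
      ring
    rw [← h3]
    exact Real.rpow_le_rpow_of_nonpos (by positivity) h2 (by norm_num)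
  -- the number of fields `M` with the same `F`
  obtain ⟨B, hB⟩ : ∃ B : ℕ, B = 2 ^ Nat.card X := ⟨_, rfl⟩
  have hfib : ∀ (s : Finset (PF K Ω X (X ⧸ V))) (F₀ : IntermediateField K Ω),
      (s.filter (fun M => F M = F₀)).card ≤ B := by
    intro s F₀
    rcases (s.filter (fun M => F M = F₀)).eq_empty_or_nonempty with h0 | ⟨M₀, hM₀⟩
    · rw [h0]
      simp
    · rw [Finset.mem_filter] at hM₀
      have hfd0 : FiniteDimensional K M₀.1 := M₀.2.1
      have hgal : IsGalois K (normalClosure K M₀.1 Ω) := ⟨⟩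
      obtain ⟨hfin, hle⟩ := card_sub (normalClosure K M₀.1 Ω)
      rw [pf_ncl M₀.2] at hle
      rw [hB]
      refine le_trans ?_ hle
      rw [← Finset.card_map ⟨Subtype.val, Subtype.val_injective⟩, ← Set.ncard_coe_finset]
      refine Set.ncard_le_ncard ?_ hfin
      intro M hM
      rw [Finset.mem_coe, Finset.mem_map] at hM
      obtain ⟨M1, hM1, rfl⟩ := hM
      rw [Finset.mem_filter] at hM1
      change M1.1 ≤ normalClosure K M₀.1 Ω
      rw [← hncl M₀, hM₀.2, ← hM1.2, hncl M1]
      exact M1.1.le_normalClosure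
  have hC0 : ∀ m : ℕ, 1 ≤ m → ∀ s : Finset (PF K Ω X (X ⧸ V)), (∀ M ∈ s, g M = m) →
      (s.card : ℝ) ≤ (B * |C|) * (m : ℝ) ^ (2 * U.index) := by
    intro m hm s hs
    obtain ⟨hfin, hle⟩ := hC m (by exact_mod_cast hm)
    have h0 := Finset.card_le_mul_card_image (f := F) s B (fun F₀ _ => hfib s F₀)
    have h1 : (s.image F).card ≤ Set.ncard {F : IntermediateField K Ω |
        FiniteDimensional K F ∧ Module.finrank K F = U.index ∧ dsc F ≤ (m : ℝ)} := by
      rw [← Set.ncard_coe_finset]
      refine Set.ncard_le_ncard ?_ hfin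
      intro x hx
      rw [Finset.mem_coe, Finset.mem_image] at hx
      obtain ⟨M, hM, rfl⟩ := hx
      refine ⟨hfd M, hfr M, ?_⟩
      change dsc (F M) ≤ m
      rw [dsc_eq (F M), ← hs M hM]
    have h2 : ((s.image F).card : ℝ) ≤ |C| * (m : ℝ) ^ (2 * U.index) := by
      refine le_trans (by exact_mod_cast h1) (hle.trans ?_)
      exact mul_le_mul_of_nonneg_right (le_abs_self C) (by positivity)
    calc (s.card : ℝ) ≤ (B : ℝ) * ((s.image F).card : ℝ) := by exact_mod_cast h0
      _ ≤ B * (|C| * (m : ℝ) ^ (2 * U.index)) := mul_le_mul_of_nonneg_left h2 (by positivity)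
      _ = _ := by ring
  have hC' : 0 ≤ (B * |C| : ℝ) := by positivity
  have hsum2 : Summable (fun m : ℕ => (1 : ℝ) / (m : ℝ) ^ 2) :=
    Real.summable_one_div_nat_pow.2 (by norm_num)
  refine Summable.of_nonneg_of_le (fun M => ?_) hbound ?_
  · exact Real.rpow_nonneg (by rw [dsc_eq]; positivity) _
  refine summable_of_sum_le (c := (B * |C|) * ∑' m : ℕ, (1 : ℝ) / (m : ℝ) ^ 2) (fun M => by positivity) ?_
  intro s
  calc ∑ M ∈ s, (1 : ℝ) / (g M : ℝ) ^ (2 * U.index + 2)
      = ∑ m ∈ s.image g, ∑ M ∈ s with g M = m, (1 : ℝ) / (g M : ℝ) ^ (2 * U.index + 2) :=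
        (Finset.sum_fiberwise_of_maps_to (fun M hM => Finset.mem_image_of_mem g hM) _).symm
    _ ≤ ∑ m ∈ s.image g, (B * |C|) * ((1 : ℝ) / (m : ℝ) ^ 2) := by
        refine Finset.sum_le_sum fun m hm => ?_
        obtain ⟨M0, hM0, hM0'⟩ := Finset.mem_image.1 hm
        have hm1 : 1 ≤ m := hM0' ▸ hg1 M0
        have hmpos : (0 : ℝ) < m := by exact_mod_cast hm1
        have e1 : ∑ M ∈ s with g M = m, (1 : ℝ) / (g M : ℝ) ^ (2 * U.index + 2) =
            ((s.filter (fun M => g M = m)).card : ℝ) * (1 / (m : ℝ) ^ (2 * U.index + 2)) := by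
          rw [Finset.sum_congr rfl (g := fun _ => (1 : ℝ) / (m : ℝ) ^ (2 * U.index + 2)),
            Finset.sum_const, nsmul_eq_mul]
          intro M hM
          rw [(Finset.mem_filter.1 hM).2]
        rw [e1]
        calc ((s.filter (fun M => g M = m)).card : ℝ) * (1 / (m : ℝ) ^ (2 * U.index + 2))
            ≤ ((B * |C|) * (m : ℝ) ^ (2 * U.index)) * (1 / (m : ℝ) ^ (2 * U.index + 2)) := by
              refine mul_le_mul_of_nonneg_right ?_ (by positivity)
              exact hC0 m hm1 _ fun M hM => (Finset.mem_filter.1 hM).2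
          _ = (B * |C|) * ((1 : ℝ) / (m : ℝ) ^ 2) := by
              rw [pow_add]
              field_simp
    _ = (B * |C|) * ∑ m ∈ s.image g, (1 : ℝ) / (m : ℝ) ^ 2 := by rw [Finset.mul_sum]
    _ ≤ (B * |C|) * ∑' m : ℕ, (1 : ℝ) / (m : ℝ) ^ 2 := by
        refine mul_le_mul_of_nonneg_left ?_ hC'
        exact hsum2.sum_le_tsum _ (fun m _ => by positivity)

end few

end Pool.Agent.W5h46.ML
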