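import Pool.Agent.W5h46.ML.Fin
import Pool.Agent.W5h46.ML.Few
import Pool.Agent.TH444.ML.Done
import Pool.Agent.W5h93.MX.Real

/-!
# The asymptotic formula for `C₂ ≀ X`, `X` acting on `X / V`
-/

set_option autoImplicit false
set_option linter.unusedSectionVars false

open NumberField Filter Topology IntermediateField

namespace Pool.Agent.W5h46.ML

open Pool.Agent.TH444.ML (HasGp Cnt dsc QuadLim QuadPos QuadUnif quadLim quadUnif quadPos rest Gal)
open Pool.Agent.TH365.J3099 (act act_apply act_apply_apply ker_act)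

section nonempty

variable {K Ω : Type} [Field K] [NumberField K] [Field Ω] [Algebra K Ω] [IsAlgClosure K Ω]
variable {X Q : Type} [Group X] [Finite X] [MulAction X Q] [Finite Q] [FaithfulSMul X Q]

theorem pf_of_gal [MulAction.IsPretransitive X Q] [Nonempty Q] {N : IntermediateField K Ω}
    (hN : N ∈ Gal K Ω X) : (PF K Ω X Q).Nonempty := by
  obtain ⟨hfd, hgal, ⟨f⟩⟩ := hN
  have hn : Normal K Ω := IsAlgClosure.normal K Ω
  have i3 : Algebra.IsAlgebraic K Ω := IsAlgClosure.isAlgebraic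
  have i4 : Algebra.IsSeparable K Ω := inferInstance
  have i5 : IsGalois K Ω := ⟨⟩
  let h : (Ω ≃ₐ[K] Ω) →* X := f.toMonoidHom.comp (AlgEquiv.restrictNormalHom N)
  have hs : Function.Surjective h := f.surjective.comp (AlgEquiv.restrictNormalHom_surjective Ω)
  have hker : N.fixingSubgroup ≤ h.ker := by
    rw [← IntermediateField.restrictNormalHom_ker]
    intro σ hσ
    rw [MonoidHom.mem_ker] at hσ ⊢
    change f (AlgEquiv.restrictNormalHom N σ) = 1
    rw [hσ, map_one]
  have hopen : IsOpen (h.ker : Set (Ω ≃ₐ[K] Ω)) :=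
    Subgroup.isOpen_mono hker N.fixingSubgroup_isOpen
  obtain ⟨M, hM, -⟩ := pf_of_hom (X := X) (Q := Q) h hs hopen (Classical.arbitrary Q)
  exact ⟨M, hM⟩

theorem gal_of_pf {M : IntermediateField K Ω} (hM : M ∈ PF K Ω X Q) :
    normalClosure K M Ω ∈ Gal K Ω X := by
  have hn : Normal K Ω := IsAlgClosure.normal K Ω
  have i3 : Algebra.IsAlgebraic K Ω := IsAlgClosure.isAlgebraic
  have i4 : Algebra.IsSeparable K Ω := inferInstance
  have i5 : IsGalois K Ω := ⟨⟩
  obtain ⟨hMfd, e, he⟩ := hM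
  obtain ⟨h, hs, hh⟩ := exists_hom M e he
  have hgal : IsGalois K (normalClosure K M Ω) := ⟨⟩
  have hker : h.ker = (AlgEquiv.restrictNormalHom (F := K) (K₁ := Ω) (normalClosure K M Ω)).ker := by
    rw [IntermediateField.restrictNormalHom_ker, ← ker_act]
    ext σ
    rw [MonoidHom.mem_ker, MonoidHom.mem_ker]
    constructor
    · intro hσ
      ext1 φ
      apply e.injective
      rw [hh, hσ, one_smul]
      rfl
    · intro hσ
      apply FaithfulSMul.eq_of_smul_eq_smul (α := Q)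
      intro q
      obtain ⟨φ, rfl⟩ := e.surjective q
      rw [← hh, hσ, one_smul]
      rfl
  refine ⟨inferInstance, hgal, ⟨?_⟩⟩
  exact (QuotientGroup.quotientKerEquivOfSurjective _ (AlgEquiv.restrictNormalHom_surjective Ω)).symm.trans
    ((QuotientGroup.quotientMulEquivOfEq hker.symm).trans (QuotientGroup.quotientKerEquivOfSurjective h hs))

end nonempty

theorem badSmallQ' (K Ω : Type) [Field K] [NumberField K] [Field Ω] [Algebra K Ω] [IsAlgClosure K Ω] :
    BadSmallQ K Ω := fun M _ =>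
  badSmallQ Pool.Agent.TH263.J3086.discQuad Pool.Agent.TH914.J3087.kumP Pool.Agent.TH857.J3095.splitSum K Ω M

section

variable (K : Type) [Field K] [NumberField K] (X : Type) [Group X] [Finite X]

theorem asympQ (V U : Subgroup X) (hVU : V ≤ U) (hU : U.normalCore = ⊥)
    (hc : 8 * U.index * (U.index + 1) ≤ V.index)
    (hne : (Gal K (AlgebraicClosure K) X).Nonempty) {n : ℕ} (G : Subgroup (Equiv.Perm (Fin n)))
    (hG : IsC2WrQ X (X ⧸ V) G) :
    (∀ B : ℝ, 0 < B → (Cnt K G B).Finite) ∧ ∃ c : ℝ, 0 < c ∧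
      Tendsto (fun B : ℝ => (Set.ncard (Cnt K G B) : ℝ) / B) atTop (𝓝 c) := by
  have hV : V.normalCore = ⊥ := by
    rw [← le_bot_iff, ← hU]
    exact Subgroup.normalCore_mono hVU
  have hfV : FaithfulSMul X (X ⧸ V) := faithful_of_core V hV
  have hd : 0 < ((|discr K| : ℤ) : ℝ) ^ n := by
    have : (0 : ℤ) < |discr K| := abs_pos.2 (discr_ne_zero K)
    have : (0 : ℝ) < ((|discr K| : ℤ) : ℝ) := by exact_mod_cast this
    positivity
  obtain ⟨N, hN⟩ := hne
  have h := main_asympQ (K := K) (Ω := AlgebraicClosure K) (H := X) (Q := X ⧸ V) (quadLim rest) quadPos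
    quadUnif (badSmallQ' K (AlgebraicClosure K))
    (fewQ Pool.Agent.TH979.J3100.hermiteRel V U hVU hU hc) (pf_of_gal hN) _ hd
  simp only [cntQ_eq K hG]
  exact h

/-- up to isomorphism -/
theorem asymp_isoQ (V U : Subgroup X) (hVU : V ≤ U) (hU : U.normalCore = ⊥)
    (hc : 8 * U.index * (U.index + 1) ≤ V.index)
    (hne : (Gal K (AlgebraicClosure K) X).Nonempty) {n : ℕ} (G : Subgroup (Equiv.Perm (Fin n)))
    (hG : IsC2WrQ X (X ⧸ V) G) :
    ∃ c : ℝ, 0 < c ∧ Tendsto (fun B : ℝ =>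
      (Nat.card (Quot (fun L L' : Cnt K G B => Nonempty (L.1 ≃ₐ[K] L'.1))) : ℝ) / B)
        atTop (𝓝 c) := by
  obtain ⟨hfin, c, hc0, hlim⟩ := asympQ K X V U hVU hU hc hne G hG
  have hV : V.normalCore = ⊥ := by
    rw [← le_bot_iff, ← hU]
    exact Subgroup.normalCore_mono hVU
  have hfV : FaithfulSMul X (X ⧸ V) := faithful_of_core V hV
  have hpos : (0 : ℝ) < Nat.card (X ⧸ V) := by exact_mod_cast (Nat.card_pos : 0 < Nat.card (X ⧸ V))
  refine ⟨c / Nat.card (X ⧸ V), by positivity, ?_⟩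
  have h := hlim.div_const (Nat.card (X ⧸ V) : ℝ)
  refine h.congr' ?_
  filter_upwards [eventually_gt_atTop (0 : ℝ)] with B hB
  have hB' := hfin B hB
  rw [cntQ_eq K hG] at hB' ⊢
  have hq := quot_TTQ (K := K) (Ω := AlgebraicClosure K) (H := X) (Q := X ⧸ V) _ hB'
  rw [← hq]
  push_cast
  field_simp

/-- an extension with group `C₂ ≀ X` gives an extension with group `X` -/
theorem gal_of_cntQ (V : Subgroup X) (hV : V.normalCore = ⊥) {d : ℕ} {G : Subgroup (Equiv.Perm (Fin d))}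
    (hG : IsC2WrQ X (X ⧸ V) G) {B : ℝ} {L : IntermediateField K (AlgebraicClosure K)}
    (hL : L ∈ Cnt K G B) :
    ∃ M : IntermediateField K (AlgebraicClosure K), M ∈ Gal K (AlgebraicClosure K) X := by
  have hfV : FaithfulSMul X (X ⧸ V) := faithful_of_core V hV
  rw [cntQ_eq K hG] at hL
  obtain ⟨M, hM⟩ := forward L hL.1 inferInstance hL.2.1
  exact ⟨_, gal_of_pf hM.1⟩

end

end Pool.Agent.W5h46.ML
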