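import Pool.Agent.TH111.J3097
import Pool.Agent.W5h46.ML.Grp

/-!
# Kummer theory over the normal closure of `M`

If the normal closure of `M(√α)` over `K` is smaller than expected, a nonempty product of conjugates
of `α` is a square in the normal closure of `M` (here `M/K` need not be Galois).
-/

set_option autoImplicit false
set_option linter.unusedSectionVars false

open IntermediateField

namespace Pool.Agent.W5h46.ML

open Pool.Agent.TH365.J3099 (act act_apply act_apply_apply)

section

variable {K Ω : Type} [Field K] [NumberField K] [Field Ω] [Algebra K Ω] [IsAlgClosure K Ω]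

theorem val_mem (M : IntermediateField K Ω) (φ : M →ₐ[K] Ω) (x : M) :
    φ x ∈ normalClosure K M Ω := φ.fieldRange_le_normalClosure ⟨x, rfl⟩

theorem notFullQ (M : IntermediateField K Ω) [FiniteDimensional K M] (L : IntermediateField K Ω)
    (hML : M ≤ L) (α : M) (s : Ω) (hs : s ^ 2 = (α : Ω)) (hL : L = M ⊔ IntermediateField.adjoin K {s})
    (hne : Module.finrank K (normalClosure K L Ω) ≠
      2 ^ Module.finrank K M * Module.finrank K (normalClosure K M Ω)) :
    ∃ S : Finset (M →ₐ[K] Ω), S.Nonempty ∧
      IsSquare (∏ φ ∈ S, (⟨φ α, val_mem M φ α⟩ : normalClosure K M Ω)) := by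
  classical
  by_contra hcon
  push Not at hcon
  apply hne
  have hac : IsAlgClosed Ω := IsAlgClosure.isAlgClosed K
  have hnorm : Normal K Ω := IsAlgClosure.normal K Ω
  have halg : Algebra.IsAlgebraic K Ω := IsAlgClosure.isAlgebraic
  obtain ⟨N, hN⟩ : ∃ N, N = normalClosure K M Ω := ⟨_, rfl⟩
  have hval : ∀ (φ : M →ₐ[K] Ω) (x : M), φ x ∈ N := fun φ x => by rw [hN]; exact val_mem M φ x
  have hcon' : ∀ S : Finset (M →ₐ[K] Ω), S.Nonempty →
      ¬ IsSquare (∏ φ ∈ S, (⟨φ α, hval φ α⟩ : N)) := by
    subst hN
    exact hcon
  have halgN : Algebra.IsAlgebraic N Ω := Algebra.IsAlgebraic.tower_top (K := K) N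
  have h2 : (2 : N) ≠ 0 := by
    have : CharZero K := inferInstance
    have : CharZero N := charZero_of_injective_algebraMap (algebraMap K N).injective
    exact two_ne_zero
  have hex : ∀ φ : M →ₐ[K] Ω, ∃ t : Ω, t ^ 2 = algebraMap N Ω ⟨φ α, hval φ α⟩ := fun φ =>
    IsAlgClosed.exists_pow_nat_eq _ two_pos
  choose η hη using hex
  have hdeg := Pool.Agent.TH111.J3097.finrank_mq' h2 hη hcon'
  have hcard : Fintype.card (M →ₐ[K] Ω) = Module.finrank K M := by
    rw [← card_emb M, Nat.card_eq_fintype_card]
  -- two square roots of the same element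
  have hroot : ∀ (E : IntermediateField K Ω) (u v : Ω), u ^ 2 = v ^ 2 → v ∈ E → u ∈ E := by
    intro E u v h hv
    rcases sq_eq_sq_iff_eq_or_eq_neg.1 h with rfl | rfl
    · exact hv
    · exact neg_mem hv
  have hNC : (IntermediateField.adjoin N (Set.range η)).restrictScalars K =
      IntermediateField.normalClosure K L Ω := by
    apply le_antisymm
    · have hM : N ≤ IntermediateField.normalClosure K L Ω := by
        rw [hN]
        exact normalClosure_mono M L hML
      have h3 : IntermediateField.adjoin N (Set.range η) ≤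
          IntermediateField.extendScalars hM := by
        rw [IntermediateField.adjoin_le_iff]
        rintro _ ⟨φ, rfl⟩
        show η φ ∈ IntermediateField.normalClosure K L Ω
        obtain ⟨σ, hσ⟩ := exists_ext M φ
        apply hroot _ (η φ) (σ s)
        · rw [hη, ← map_pow, hs]
          exact (DFunLike.congr_fun hσ α).symm
        · rw [IntermediateField.normalClosure_def'']
          have h4 : L.map (σ : Ω →ₐ[K] Ω) ≤
              ⨆ f : Ω ≃ₐ[K] Ω, L.map (f : Ω →ₐ[K] Ω) :=
            le_iSup (fun f : Ω ≃ₐ[K] Ω => L.map (f : Ω →ₐ[K] Ω)) σ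
          apply h4
          refine ⟨s, ?_, rfl⟩
          rw [hL]
          exact (le_sup_right : IntermediateField.adjoin K {s} ≤ _)
            (IntermediateField.mem_adjoin_simple_self K s)
      exact h3
    · rw [IntermediateField.normalClosure_def'']
      apply iSup_le
      intro σ
      rw [hL, IntermediateField.map_sup, IntermediateField.adjoin_map, Set.image_singleton]
      apply sup_le
      · rintro _ ⟨m, hm, rfl⟩
        have h6 : σ m ∈ N := hval (act M σ M.val) ⟨m, hm⟩
        exact IntermediateField.algebraMap_mem (IntermediateField.adjoin N (Set.range η)) ⟨_, h6⟩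
      · rw [IntermediateField.adjoin_simple_le_iff]
        show σ s ∈ (IntermediateField.adjoin N (Set.range η)).restrictScalars K
        apply hroot _ (σ s) (η (act M σ M.val))
        · rw [hη, ← map_pow, hs]
          rfl
        · exact IntermediateField.subset_adjoin N _ ⟨_, rfl⟩
  rw [← hNC, ← hN, ← hcard, ← hdeg]
  have h7 := Module.finrank_mul_finrank K N (IntermediateField.adjoin N (Set.range η))
  rw [mul_comm, h7]
  rfl

end

end Pool.Agent.W5h46.ML
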