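import Pool.Agent.TH444.ML.Quo
import Pool.Agent.W5h46.ML.Main

/-!
# Permutation groups on `Fin n`, counting up to isomorphism
-/

set_option autoImplicit false
set_option linter.unusedSectionVars false

open NumberField Filter Topology

namespace Pool.Agent.W5h46.ML

open Pool.Agent.TH444.ML (HasGp Cnt dsc nf_of_fd dsc_eq card_quot)

/-- `G ≤ S_n` is, up to a bijection of `{1, ..., n}` with `Q × {0, 1}`, the wreath product
`C₂ ≀ H`: the group of all permutations `π` of `Q × {0, 1}` for which there is `h ∈ H` such that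
`π` maps `{x} × {0, 1}` to `{h x} × {0, 1}` for all `x ∈ Q`. -/
def IsC2WrQ (H Q : Type) [Group H] [MulAction H Q] {n : ℕ} (G : Subgroup (Equiv.Perm (Fin n))) : Prop :=
  ∃ f : Fin n ≃ Q × Bool, ∀ π : Equiv.Perm (Fin n), π ∈ G ↔ ∃ h : H, ∀ i, (f (π i)).1 = h • (f i).1

theorem c2wrQ_n {H Q : Type} [Group H] [MulAction H Q] [Finite Q] {n : ℕ} {G : Subgroup (Equiv.Perm (Fin n))}
    (hG : IsC2WrQ H Q G) : n = 2 * Nat.card Q := by
  obtain ⟨f, -⟩ := hG
  have := Nat.card_congr f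
  rw [Nat.card_prod] at this
  simpa [mul_comm] using this

theorem hasGpQ_iff (K : Type) [Field K] {H Q : Type} [Group H] [MulAction H Q] {n : ℕ}
    {G : Subgroup (Equiv.Perm (Fin n))} (hG : IsC2WrQ H Q G)
    (L : IntermediateField K (AlgebraicClosure K)) :
    HasGp K G L ↔ IsWrQ K (AlgebraicClosure K) H Q L := by
  obtain ⟨f, hf⟩ := hG
  constructor
  · rintro ⟨e, he⟩
    refine ⟨e.trans f, fun π => ?_⟩
    have h1 := hf (f.trans (π.trans f.symm))
    have h2 := he (f.trans (π.trans f.symm))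
    have h3 : π ∈ WrQ H Q ↔ f.trans (π.trans f.symm) ∈ G := by
      rw [h1]
      constructor
      · rintro ⟨h, hh⟩
        exact ⟨h, fun i => by simpa using hh (f i)⟩
      · rintro ⟨h, hh⟩
        refine ⟨h, fun x => ?_⟩
        have := hh (f.symm x)
        simpa using this
    rw [h3, h2]
    constructor
    · rintro ⟨σ, hσ⟩
      refine ⟨σ, fun φ => ?_⟩
      have := hσ φ
      simp only [Equiv.trans_apply] at this ⊢
      rw [this]
      simp
    · rintro ⟨σ, hσ⟩
      refine ⟨σ, fun φ => ?_⟩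
      have := hσ φ
      simp only [Equiv.trans_apply] at this ⊢
      rw [← this]
      simp
  · rintro ⟨e, he⟩
    refine ⟨e.trans f.symm, fun π => ?_⟩
    have h1 := hf π
    have h2 := he (f.symm.trans (π.trans f))
    have h3 : π ∈ G ↔ f.symm.trans (π.trans f) ∈ WrQ H Q := by
      rw [h1]
      constructor
      · rintro ⟨h, hh⟩
        refine ⟨h, fun x => ?_⟩
        have := hh (f.symm x)
        simpa using this
      · rintro ⟨h, hh⟩
        exact ⟨h, fun i => by simpa using hh (f i)⟩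
    rw [h3, h2]
    constructor
    · rintro ⟨σ, hσ⟩
      refine ⟨σ, fun φ => ?_⟩
      have := hσ φ
      simp only [Equiv.trans_apply] at this ⊢
      rw [this]
      simp
    · rintro ⟨σ, hσ⟩
      refine ⟨σ, fun φ => ?_⟩
      have := hσ φ
      simp only [Equiv.trans_apply] at this ⊢
      rw [← this]
      simp

theorem cntQ_eq (K : Type) [Field K] [NumberField K] {H Q : Type} [Group H] [MulAction H Q] [Finite Q] [Nonempty Q] {n : ℕ}
    {G : Subgroup (Equiv.Perm (Fin n))} (hG : IsC2WrQ H Q G) (X : ℝ) :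
    Cnt K G X = TTQ K (AlgebraicClosure K) H Q (X * ((|discr K| : ℤ) : ℝ) ^ n) := by
  have hn := c2wrQ_n hG
  ext L
  constructor
  · rintro ⟨h1, h2, h3, h4⟩
    refine ⟨by rw [h1, hn], (hasGpQ_iff K hG L).1 h2, ?_⟩
    rw [dsc_eq L]
    exact h4
  · rintro ⟨h1, h2, h3⟩
    have hpos : 0 < Nat.card Q := Nat.card_pos
    have hfd : FiniteDimensional K L := FiniteDimensional.of_finrank_pos (by omega)
    have hnf : NumberField L := nf_of_fd L
    refine ⟨by rw [h1, hn], (hasGpQ_iff K hG L).2 h2, hnf, ?_⟩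
    rw [dsc_eq L] at h3
    exact h3

/-- isomorphic fields have the same properties -/
theorem ttQ_iso {K Ω H Q : Type} [Field K] [NumberField K] [Field Ω] [Algebra K Ω] [Group H]
    [MulAction H Q] [Finite Q] [Nonempty Q] {Z : ℝ}
    {L L' : IntermediateField K Ω} (h : L ∈ TTQ K Ω H Q Z) (ε : L ≃ₐ[K] L') : L' ∈ TTQ K Ω H Q Z := by
  obtain ⟨h1, ⟨e, he⟩, h3⟩ := h
  have hpos : 0 < Nat.card Q := Nat.card_pos
  have hfd : FiniteDimensional K L := FiniteDimensional.of_finrank_pos (by omega)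
  have hnf : NumberField L := nf_of_fd L
  have hfd' : FiniteDimensional K L' := Module.Finite.equiv ε.toLinearEquiv
  have hnf' : NumberField L' := nf_of_fd L'
  refine ⟨?_, ?_, ?_⟩
  · rw [← h1]; exact (ε.toLinearEquiv.finrank_eq).symm
  · let E : (L' →ₐ[K] Ω) ≃ (L →ₐ[K] Ω) :=
      { toFun := fun φ => φ.comp ε.toAlgHom
        invFun := fun φ => φ.comp ε.symm.toAlgHom
        left_inv := fun φ => by ext x; simp
        right_inv := fun φ => by ext x; simp }
    refine ⟨E.trans e, fun π => ?_⟩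
    rw [he π]
    constructor
    · rintro ⟨σ, hσ⟩
      exact ⟨σ, fun φ => hσ (E φ)⟩
    · rintro ⟨σ, hσ⟩
      refine ⟨σ, fun φ => ?_⟩
      have := hσ (E.symm φ)
      simp only [Equiv.trans_apply, Equiv.apply_symm_apply] at this
      rw [← this]
      congr 1
      ext x
      simp [E]
  · rw [dsc_eq L'] 
    rw [dsc_eq L] at h3
    rw [← NumberField.discr_eq_discr_of_ringEquiv L (ε : L ≃+* L')]
    exact h3


theorem quot_TTQ {K Ω H Q : Type} [Field K] [NumberField K] [Field Ω] [Algebra K Ω]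
    [IsAlgClosure K Ω] [Group H] [Finite H] [MulAction H Q] [Finite Q] [FaithfulSMul H Q] [Nonempty Q]
    (Z : ℝ) (hfin : (TTQ K Ω H Q Z).Finite) :
    Nat.card (Quot (fun L L' : TTQ K Ω H Q Z => Nonempty (L.1 ≃ₐ[K] L'.1))) * Nat.card Q =
      (TTQ K Ω H Q Z).ncard := by
  have : Finite (TTQ K Ω H Q Z) := hfin
  rw [card_quot (T := TTQ K Ω H Q Z) (fun L L' => Nonempty (L.1 ≃ₐ[K] L'.1)) ?_ (Nat.card Q) ?_]
  · rfl
  · exact ⟨fun L => ⟨AlgEquiv.refl⟩, fun ⟨a⟩ => ⟨a.symm⟩, fun ⟨a⟩ ⟨b⟩ => ⟨a.trans b⟩⟩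
  · intro L
    rw [← conj_card L.1 L.2.2.1, ← Nat.card_coe_set_eq]
    refine Nat.card_congr ⟨fun y => ⟨y.1.1, y.2⟩,
      fun y => ⟨⟨y.1, ttQ_iso L.2 y.2.some⟩, y.2⟩, fun y => rfl, fun y => rfl⟩

end Pool.Agent.W5h46.ML
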