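import Pool.Agent.TH9.J3098
import Pool.Agent.TH713.J3096
import Pool.Agent.TH857.J3095

/-!
# The sieve for a field `M` which need not be Galois over `K`

`N` is a Galois extension of `K` containing `M`.
-/

set_option autoImplicit false
set_option linter.unusedSectionVars false

open NumberField Filter Topology Ideal

namespace Pool.Agent.W5h46.ML

open Pool.Agent.TH444.ML
open Pool.Agent.TH9.J3098 (v v_mul v_prod v_sqf v_zero)

/-- squarefree ideals `𝔡` of `M` such that no prime `p` of `K` totally split in `N` has exactly one prime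
of `M` above `p` dividing `𝔡` -/
def badIdQ (K M N : Type) [Field K] [NumberField K] [Field M] [NumberField M] [Algebra K M]
    [Field N] [NumberField N] [Algebra K N] : Set (Ideal (𝓞 M)) :=
  {𝔡 | Squarefree 𝔡 ∧ ∀ p : Ideal (𝓞 K), p.IsPrime → p ≠ ⊥ →
    Set.ncard (p.primesOver (𝓞 N)) = Module.finrank K N →
    ¬ ∃! P : Ideal (𝓞 M), P ∈ p.primesOver (𝓞 M) ∧ P ∣ 𝔡}

section split

variable (K N : Type) [Field K] [NumberField K] [Field N] [NumberField N] [Algebra K N]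

open UniqueFactorizationMonoid in
/-- a totally split prime is unramified -/
theorem v_split (p : Ideal (𝓞 K)) (hp : p.IsPrime) (hp0 : p ≠ ⊥)
    (hcard : Set.ncard (p.primesOver (𝓞 N)) = Module.finrank K N)
    (P : Ideal (𝓞 N)) (hP : P ∈ p.primesOver (𝓞 N)) : v P (p.map (algebraMap (𝓞 K) (𝓞 N))) = 1 := by
  classical
  have : p.IsMaximal := hp.isMaximal hp0
  have hsum := sum_ramification_inertia (𝓞 N) K N hp0
  have hc : (IsDedekindDomain.primesOverFinset p (𝓞 N)).card = Module.finrank K N := by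
    rw [← hcard, ← IsDedekindDomain.coe_primesOverFinset hp0 (𝓞 N), Set.ncard_coe_finset]
  have hone : ∀ Q ∈ IsDedekindDomain.primesOverFinset p (𝓞 N),
      1 ≤ ramificationIdx' p Q * inertiaDeg' p Q := by
    intro Q hQ
    have hQ' := (IsDedekindDomain.mem_primesOverFinset_iff hp0 (𝓞 N)).mp hQ
    have : Q.IsPrime := hQ'.1
    have : Q.LiesOver p := hQ'.2
    refine Right.one_le_mul ?_ ?_
    · exact Nat.pos_iff_ne_zero.mpr <| IsDedekindDomain.ramificationIdx'_ne_zero_of_liesOver _ hp0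
    · exact Nat.pos_iff_ne_zero.mpr <| inertiaDeg'_ne_zero p Q
  have hPf : P ∈ IsDedekindDomain.primesOverFinset p (𝓞 N) :=
    (IsDedekindDomain.mem_primesOverFinset_iff hp0 (𝓞 N)).mpr hP
  have heq : ramificationIdx' p P * inertiaDeg' p P = 1 := by
    by_contra hcon
    have h2 : 1 < ramificationIdx' p P * inertiaDeg' p P :=
      lt_of_le_of_ne (hone P hPf) (Ne.symm hcon)
    have h3 : ∑ Q ∈ IsDedekindDomain.primesOverFinset p (𝓞 N), 1 <
        ∑ Q ∈ IsDedekindDomain.primesOverFinset p (𝓞 N),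
          ramificationIdx' p Q * inertiaDeg' p Q :=
      Finset.sum_lt_sum hone ⟨P, hPf, h2⟩
    rw [hsum, Finset.sum_const, smul_eq_mul, mul_one, hc] at h3
    exact lt_irrefl _ h3
  have hf : ramificationIdx' p P = 1 := Nat.eq_one_of_mul_eq_one_right heq
  have hmap0 : p.map (algebraMap (𝓞 K) (𝓞 N)) ≠ ⊥ := map_ne_bot_of_ne_bot hp0
  have hPover : P.LiesOver p := hP.2
  have hP0 : P ≠ ⊥ := Ideal.ne_bot_of_liesOver_of_ne_bot hp0 P
  unfold v
  rw [← hf, IsDedekindDomain.ramificationIdx'_eq_normalizedFactors_count hmap0 hP.1 hP0]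

theorem card_over_le (p : Ideal (𝓞 K)) [p.IsMaximal] (hp0 : p ≠ ⊥) :
    (IsDedekindDomain.primesOverFinset p (𝓞 N)).card ≤ Module.finrank K N := by
  rw [← sum_ramification_inertia (𝓞 N) K N hp0, Finset.card_eq_sum_ones]
  refine Finset.sum_le_sum fun Q hQ => ?_
  have hQ' := (IsDedekindDomain.mem_primesOverFinset_iff hp0 (𝓞 N)).mp hQ
  have : Q.IsPrime := hQ'.1
  have : Q.LiesOver p := hQ'.2
  refine Right.one_le_mul ?_ ?_
  · exact Nat.pos_iff_ne_zero.mpr <| IsDedekindDomain.ramificationIdx'_ne_zero_of_liesOver _ hp0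
  · exact Nat.pos_iff_ne_zero.mpr <| inertiaDeg'_ne_zero p Q

variable (M : Type) [Field M] [NumberField M] [Algebra K M] [Algebra M N] [IsScalarTower K M N]

/-- primes totally split in `N` are totally split in `M` -/
theorem split_down (p : Ideal (𝓞 K)) (hp : p.IsPrime) (hp0 : p ≠ ⊥)
    (hcard : Set.ncard (p.primesOver (𝓞 N)) = Module.finrank K N) :
    Set.ncard (p.primesOver (𝓞 M)) = Module.finrank K M := by
  classical
  have : p.IsMaximal := hp.isMaximal hp0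
  rw [← IsDedekindDomain.coe_primesOverFinset hp0 (𝓞 N), Set.ncard_coe_finset] at hcard
  rw [← IsDedekindDomain.coe_primesOverFinset hp0 (𝓞 M), Set.ncard_coe_finset]
  apply le_antisymm (card_over_le K M p hp0)
  have h1 : IsDedekindDomain.primesOverFinset p (𝓞 N) ⊆
      (IsDedekindDomain.primesOverFinset p (𝓞 M)).biUnion
        (fun P => IsDedekindDomain.primesOverFinset P (𝓞 N)) := by
    intro Q hQ
    have hQ' := (IsDedekindDomain.mem_primesOverFinset_iff hp0 (𝓞 N)).mp hQ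
    have : Q.IsPrime := hQ'.1
    have : Q.LiesOver p := hQ'.2
    rw [Finset.mem_biUnion]
    have h2 : (Q.under (𝓞 M)).LiesOver p := LiesOver.tower_bot Q (Q.under (𝓞 M)) p
    have h3 : Q.under (𝓞 M) ≠ ⊥ := Ideal.ne_bot_of_liesOver_of_ne_bot hp0 _
    have h5 : (Q.under (𝓞 M)).IsPrime := inferInstance
    have h4 : (Q.under (𝓞 M)).IsMaximal := h5.isMaximal h3
    refine ⟨Q.under (𝓞 M), (IsDedekindDomain.mem_primesOverFinset_iff hp0 (𝓞 M)).mpr ⟨h5, h2⟩, ?_⟩
    rw [IsDedekindDomain.mem_primesOverFinset_iff h3]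
    exact ⟨inferInstance, inferInstance⟩
  have h2 := (Finset.card_le_card h1).trans (Finset.card_biUnion_le_card_mul _ _ (Module.finrank M N) ?_)
  · rw [hcard, ← Module.finrank_mul_finrank K M N] at h2
    exact Nat.le_of_mul_le_mul_right h2 Module.finrank_pos
  · intro P hP
    have hP' := (IsDedekindDomain.mem_primesOverFinset_iff hp0 (𝓞 M)).mp hP
    have : P.IsPrime := hP'.1
    have : P.LiesOver p := hP'.2
    have h3 : P ≠ ⊥ := Ideal.ne_bot_of_liesOver_of_ne_bot hp0 _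
    have h4 : P.IsMaximal := hP'.1.isMaximal h3
    exact card_over_le M N P h3

end split

section bad

variable {R : Type} [CommRing R] [IsDedekindDomain R]

theorem v_self (P : Ideal R) (hP : P.IsPrime) (hP0 : P ≠ ⊥) : v P P = 1 :=
  v_sqf P P hP hP0 ((Ideal.prime_of_isPrime hP0 hP).irreducible.squarefree) le_rfl

theorem v_pos (P I : Ideal R) (hP : P.IsPrime) (hP0 : P ≠ ⊥) (hI : I ≠ ⊥) (h : I ≤ P) : 1 ≤ v P I := by
  obtain ⟨J, rfl⟩ := Ideal.dvd_iff_le.2 h
  have hJ : J ≠ ⊥ := by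
    rintro rfl
    exact hI (by simp)
  rw [v_mul P hP0 hJ, v_self P hP hP0]
  omega

theorem v_mono (P : Ideal R) {I J : Ideal R} (hJ : J ≠ ⊥) (h : I ∣ J) : v P I ≤ v P J := by
  obtain ⟨T, rfl⟩ := h
  have hI : I ≠ ⊥ := by
    rintro rfl
    exact hJ (by simp)
  have hT : T ≠ ⊥ := by
    rintro rfl
    exact hJ (by simp)
  rw [v_mul P hI hT]
  omega

theorem v_one (P I : Ideal R) (hP : P.IsPrime) (hP0 : P ≠ ⊥) (hI : I ≠ ⊥) (h : I ≤ P)
    (h2 : ¬ I ≤ P ^ 2) : v P I = 1 := by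
  obtain ⟨J, rfl⟩ := Ideal.dvd_iff_le.2 h
  have hJ : J ≠ ⊥ := by
    rintro rfl
    exact hI (by simp)
  rw [v_mul P hP0 hJ, v_self P hP hP0, v_zero P J hJ]
  intro h3
  apply h2
  rw [pow_two]
  exact Ideal.mul_mono_right h3

theorem not_le_sq (P I : Ideal R) (hP : P.IsPrime) (hP0 : P ≠ ⊥) (hI : I ≠ ⊥) (h : v P I = 1) :
    ¬ I ≤ P ^ 2 := by
  intro h2
  obtain ⟨J, rfl⟩ := Ideal.dvd_iff_le.2 h2
  have hJ : J ≠ ⊥ := by
    rintro rfl
    exact hI (by simp)
  rw [pow_two, mul_assoc, v_mul P hP0 (mul_ne_zero hP0 hJ), v_mul P hP0 hJ, v_self P hP hP0] at h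
  omega

end bad

theorem sqBadQ (K M N : Type) [Field K] [NumberField K] [Field M] [NumberField M]
    [Field N] [NumberField N] [Algebra K M] [Algebra M N] [Algebra K N] [IsScalarTower K M N]
    [IsGalois K N] {ι : Type} (τ : ι → (N ≃ₐ[K] N))
    (hτ : ∀ i j, (∀ x : M, τ i (algebraMap M N x) = τ j (algebraMap M N x)) → i = j)
    (α : 𝓞 M) (𝔡 𝔠 : Ideal (𝓞 M)) (S : Finset ι) (hα : α ≠ 0) (hsq : Squarefree 𝔡)
    (hdc : Ideal.span {α} = 𝔡 * 𝔠 ^ 2) (hS : S.Nonempty)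
    (hprod : IsSquare (∏ i ∈ S, τ i (algebraMap M N (α : M)))) : 𝔡 ∈ badIdQ K M N := by
  classical
  refine ⟨hsq, fun p hp hp0 hcard => ?_⟩
  rintro ⟨P, ⟨hPp, hPd⟩, huniq⟩
  obtain ⟨i₀, hi₀⟩ := hS
  have hPprime : P.IsPrime := hPp.1
  have hPover : P.LiesOver p := hPp.2
  have hP0 : P ≠ ⊥ := Ideal.ne_bot_of_liesOver_of_ne_bot hp0 P
  have hPmax : P.IsMaximal := hPprime.isMaximal hP0
  let g : (N ≃ₐ[K] N) → (𝓞 N ≃ₐ[𝓞 K] 𝓞 N) := fun σ => galRestrict (𝓞 K) K N (𝓞 N) σ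
  -- the primes over p
  have hmem : ∀ (τ : 𝓞 N ≃ₐ[𝓞 K] 𝓞 N) (Q : Ideal (𝓞 N)), Q ∈ p.primesOver (𝓞 N) →
      Q.comap τ ∈ p.primesOver (𝓞 N) := by
    intro τ Q hQ
    have hQ1 : Q.IsPrime := hQ.1
    have hQ2 : Q.LiesOver p := hQ.2
    refine ⟨Ideal.comap_isPrime _ _, ⟨?_⟩⟩
    rw [hQ2.over]
    ext x
    simp only [Ideal.under_def, Ideal.mem_comap]
    rw [AlgEquiv.commutes]
  -- a prime above `P`
  obtain ⟨Q, hQm, hQP⟩ : ∃ Q : Ideal (𝓞 N), Q.IsMaximal ∧ Q.LiesOver P :=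
    Ideal.exists_maximal_ideal_liesOver_of_isIntegral P
  have hQpr : Q.IsPrime := hQm.isPrime
  have hQp : Q.LiesOver p := LiesOver.trans Q P p
  have hQmem : Q ∈ p.primesOver (𝓞 N) := ⟨hQpr, hQp⟩
  have hQ0 : Q ≠ ⊥ := Ideal.ne_bot_of_liesOver_of_ne_bot hp0 Q
  obtain ⟨P', hP'⟩ : ∃ P', P' = Q.comap (g (τ i₀)).symm := ⟨_, rfl⟩
  have hP'p : P' ∈ p.primesOver (𝓞 N) := by
    rw [hP']
    exact hmem _ _ hQmem
  have hP'over : P'.LiesOver p := hP'p.2
  have hP'0 : P' ≠ ⊥ := Ideal.ne_bot_of_liesOver_of_ne_bot hp0 P'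
  have hback : P'.comap (g (τ i₀)) = Q := by
    rw [hP']
    ext x
    simp [Ideal.mem_comap]
  have hinj : ∀ σ τ : N ≃ₐ[K] N, P'.comap (g σ) = P'.comap (g τ) → σ = τ := by
    let Φ : (N ≃ₐ[K] N) → p.primesOver (𝓞 N) := fun σ => ⟨P'.comap (g σ), hmem _ _ hP'p⟩
    have hsurj : Function.Surjective Φ := by
      rintro ⟨Q, hQ⟩
      obtain ⟨σ, hσ⟩ := Ideal.exists_comap_galRestrict_eq (𝓞 K) K N (𝓞 N) hP'p hQ
      exact ⟨σ, Subtype.ext hσ⟩
    have hb : Function.Bijective Φ := by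
      refine hsurj.bijective_of_nat_card_le ?_
      rw [Nat.card_coe_set_eq, hcard, IsGalois.card_aut_eq_finrank]
    intro σ τ h
    exact hb.1 (Subtype.ext h)
  have hspan : Ideal.span {α} ≠ ⊥ := by
    rw [Ne, Ideal.span_singleton_eq_bot]
    exact hα
  have hd0 : 𝔡 ≠ ⊥ := by
    rintro rfl
    apply hspan
    rw [hdc, Ideal.bot_mul]
  have hc0 : 𝔠 ≠ ⊥ := by
    rintro rfl
    apply hspan
    rw [hdc]
    simp [pow_two]
  -- extension of the ideals to `N`
  have hup0 : ∀ I : Ideal (𝓞 M), I ≠ ⊥ → I.map (algebraMap (𝓞 M) (𝓞 N)) ≠ ⊥ := fun I hI =>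
    map_ne_bot_of_ne_bot hI
  have hmap0 : ∀ (σ : N ≃ₐ[K] N) (I : Ideal (𝓞 N)), I ≠ ⊥ → I.map (g σ) ≠ ⊥ := by
    intro σ I hI h
    apply hI
    rw [Ideal.map_eq_bot_iff_of_injective (g σ).injective] at h
    exact h
  -- the multiplicity of `𝔡` at `Q`
  have hvQ : v Q (𝔡.map (algebraMap (𝓞 M) (𝓞 N))) = 1 := by
    obtain ⟨D, hD⟩ := hPd
    have hD0 : D ≠ ⊥ := by
      rintro rfl
      exact hd0 (by rw [hD]; simp)
    have hDP : ¬ D ≤ P := by
      intro h
      obtain ⟨T, hT⟩ := Ideal.dvd_iff_le.2 h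
      have h1 := hsq P ⟨T, by rw [hD, hT]; ring⟩
      rw [Ideal.isUnit_iff] at h1
      exact hPprime.ne_top h1
    rw [hD, Ideal.map_mul, v_mul Q (hup0 _ hP0) (hup0 _ hD0), v_zero Q _ (hup0 _ hD0)]
    · have h1 : 1 ≤ v Q (P.map (algebraMap (𝓞 M) (𝓞 N))) := by
        apply v_pos Q _ hQpr hQ0 (hup0 _ hP0)
        rw [Ideal.map_le_iff_le_comap]
        exact hQP.over.le
      have h2 : v Q (P.map (algebraMap (𝓞 M) (𝓞 N))) ≤ v Q (p.map (algebraMap (𝓞 K) (𝓞 N))) := by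
        apply v_mono Q (map_ne_bot_of_ne_bot hp0)
        rw [Ideal.dvd_iff_le, IsScalarTower.algebraMap_eq (𝓞 K) (𝓞 M) (𝓞 N), ← Ideal.map_map]
        apply Ideal.map_mono
        rw [Ideal.map_le_iff_le_comap]
        exact hPover.over.le
      rw [v_split K N p hp hp0 hcard Q hQmem] at h2
      omega
    · intro h
      rw [Ideal.map_le_iff_le_comap] at h
      apply hDP
      rw [hQP.over]
      exact h
  have hsymm : ∀ (σ : N ≃ₐ[K] N) (I : Ideal (𝓞 N)), I.map (g σ).symm = I.comap (g σ) := by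
    intro σ I
    exact Ideal.map_symm (g σ).toRingEquiv
  have hcnt : ∀ i ∈ S, v P' ((𝔡.map (algebraMap (𝓞 M) (𝓞 N))).map (g (τ i))) = if i = i₀ then 1 else 0 := by
    intro i _
    by_cases hσ : i = i₀
    · rw [if_pos hσ, hσ]
      have h1 := not_le_sq Q _ hQpr hQ0 (hup0 _ hd0) hvQ
      refine v_one _ _ hP'p.1 hP'0 (hmap0 _ _ (hup0 _ hd0)) ?_ ?_
      · rw [Ideal.map_le_iff_le_comap]
        refine le_trans ?_ hback.ge
        by_contra h2
        rw [v_zero Q _ (hup0 _ hd0) h2] at hvQ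
        exact absurd hvQ (by norm_num)
      · intro h2
        apply h1
        rw [Ideal.map_le_iff_le_comap] at h2
        refine h2.trans ?_
        rw [← hsymm, Ideal.map_pow, hsymm]
        exact (Ideal.pow_right_mono (le_of_eq hback) 2)
    · rw [if_neg hσ]
      refine v_zero _ _ (hmap0 _ _ (hup0 _ hd0)) ?_
      intro h
      rw [Ideal.map_le_iff_le_comap] at h
      have hQi := hmem (g (τ i)) _ hP'p
      obtain ⟨Qi, hQidef⟩ : ∃ Qi, Qi = P'.comap (g (τ i)) := ⟨_, rfl⟩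
      rw [← hQidef] at h hQi
      have hQi1 : Qi.IsPrime := hQi.1
      have hQi2 : Qi.LiesOver p := hQi.2
      have h2 : (Qi.under (𝓞 M)).LiesOver p := LiesOver.tower_bot Qi (Qi.under (𝓞 M)) p
      have h3 : Qi.under (𝓞 M) = P := by
        apply huniq
        refine ⟨⟨inferInstance, h2⟩, ?_⟩
        rw [Ideal.dvd_iff_le]
        rw [Ideal.map_le_iff_le_comap] at h
        exact h
      have hQiP : Qi ∈ P.primesOver (𝓞 N) := ⟨hQi1, ⟨h3.symm⟩⟩
      have hGal : IsGalois M N := IsGalois.tower_top_of_isGalois K M N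
      obtain ⟨t, ht⟩ := Ideal.exists_comap_galRestrict_eq (𝓞 M) M N (𝓞 N)
        (show Q ∈ P.primesOver (𝓞 N) from ⟨hQpr, hQP⟩) hQiP
      have h4 : τ i = τ i₀ * t.restrictScalars K := by
        apply hinj
        rw [← hQidef, ← ht, ← hback]
        have h5 : ∀ x : 𝓞 N, g (τ i₀ * t.restrictScalars K) x =
            g (τ i₀) (galRestrict (𝓞 M) M N (𝓞 N) t x) := by
          intro x
          apply RingOfIntegers.coe_injective
          have e1 := algebraMap_galRestrict_apply (𝓞 K) (τ i₀ * t.restrictScalars K) x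
          have e2 := algebraMap_galRestrict_apply (𝓞 K) (τ i₀) (galRestrict (𝓞 M) M N (𝓞 N) t x)
          have e3 := algebraMap_galRestrict_apply (𝓞 M) t x
          rw [e3] at e2
          exact e1.trans e2.symm
        ext x
        simp only [Ideal.mem_comap]
        rw [h5]
      apply hσ
      apply hτ
      intro x
      rw [h4]
      change τ i₀ (t (algebraMap M N x)) = _
      rw [t.commutes]
  -- the product is a square
  obtain ⟨b, hb⟩ := hprod
  obtain ⟨α', hα'⟩ : ∃ α' : 𝓞 N, α' = algebraMap (𝓞 M) (𝓞 N) α := ⟨_, rfl⟩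
  have hα'c : (α' : N) = algebraMap M N (α : M) := by
    rw [hα']
    rfl
  have hbint : IsIntegral ℤ b := by
    have h1 : IsIntegral ℤ (b ^ 2) := by
      rw [pow_two, ← hb]
      refine IsIntegral.prod _ fun i _ => ?_
      rw [← hα'c]
      exact map_isIntegral_int (τ i).toAlgHom.toRingHom α'.2
    exact IsIntegral.of_pow (by norm_num) h1
  obtain ⟨β, hβ⟩ : ∃ β : 𝓞 N, (β : N) = b := ⟨⟨b, hbint⟩, rfl⟩
  have hprod2 : ∏ i ∈ S, g (τ i) α' = β * β := by
    apply RingOfIntegers.coe_injective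
    rw [map_prod, map_mul, show algebraMap (𝓞 N) N β = b from hβ, ← hb]
    refine Finset.prod_congr rfl fun i _ => ?_
    rw [← hα'c]
    exact algebraMap_galRestrict_apply (𝓞 K) (τ i) α'
  have hspan' : Ideal.span {α'} = 𝔡.map (algebraMap (𝓞 M) (𝓞 N)) * 𝔠.map (algebraMap (𝓞 M) (𝓞 N)) ^ 2 := by
    rw [← Ideal.map_pow, ← Ideal.map_mul, ← hdc, Ideal.map_span, Set.image_singleton, hα']
  have hspan0 : Ideal.span {α'} ≠ ⊥ := by
    rw [hspan']
    exact mul_ne_zero (hup0 _ hd0) (pow_ne_zero _ (hup0 _ hc0))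
  have hI0 : ∀ i : ι, (Ideal.span {α'}).map (g (τ i)) ≠ ⊥ := fun i => hmap0 _ _ hspan0
  have h1 : ∏ i ∈ S, (Ideal.span {α'}).map (g (τ i)) = Ideal.span {β} * Ideal.span {β} := by
    rw [Ideal.span_singleton_mul_span_singleton, ← hprod2, ← Ideal.prod_span_singleton]
    refine Finset.prod_congr rfl fun i _ => ?_
    rw [Ideal.map_span, Set.image_singleton]
  have hβ0 : Ideal.span {β} ≠ ⊥ := by
    intro h
    have h4 : ∏ i ∈ S, (Ideal.span {α'}).map (g (τ i)) ≠ 0 :=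
      Finset.prod_ne_zero_iff.mpr fun i _ => hI0 i
    rw [h1, h] at h4
    exact h4 (by simp)
  have h2 : v P' (∏ i ∈ S, (Ideal.span {α'}).map (g (τ i))) = v P' (Ideal.span {β}) + v P' (Ideal.span {β}) := by
    rw [h1, v_mul _ hβ0 hβ0]
  rw [v_prod _ _ _ hI0] at h2
  have h3 : ∀ i ∈ S, v P' ((Ideal.span {α'}).map (g (τ i))) =
      (if i = i₀ then 1 else 0) + 2 * v P' ((𝔠.map (algebraMap (𝓞 M) (𝓞 N))).map (g (τ i))) := by
    intro i hi
    rw [hspan', Ideal.map_mul, Ideal.map_pow, pow_two, v_mul _ (hmap0 _ _ (hup0 _ hd0))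
      (mul_ne_zero (hmap0 _ _ (hup0 _ hc0)) (hmap0 _ _ (hup0 _ hc0))),
      v_mul _ (hmap0 _ _ (hup0 _ hc0)) (hmap0 _ _ (hup0 _ hc0)), hcnt i hi]
    ring
  rw [Finset.sum_congr rfl h3, Finset.sum_add_distrib, Finset.sum_ite_eq', if_pos hi₀,
    ← Finset.mul_sum] at h2
  omega

end Pool.Agent.W5h46.ML
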